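import Pool.Agent.Work.MP_cfa43e_lc.Reg.Stmts

/-!
# Regular graphs of any degree: definitions and items

Every item is a `Prop` `PXn`; it is to be proved as `theorem Xn : PXn` (or
`theorem Xn (h : PYm) ... : PXn` if it uses other items) in the file `Reg/Xn.lean`.
-/

set_option autoImplicit false

namespace Pool.Agent.PReg

open Pool.Agent.PEmb

section
variable {V W : Type}

/-- Twins: two vertices with at least `d - 2` common neighbours. -/
def Tw (d : ℕ) (G : SimpleGraph V) (u v : V) : Prop :=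
  u ≠ v ∧ d ≤ (G.neighborSet u ∩ G.neighborSet v).ncard + 2

/-- `u` has no twin. -/
def TFree (d : ℕ) (G : SimpleGraph V) (u : V) : Prop := ∀ v, ¬ Tw d G u v

/-- `v` is used more than once. -/
def Mul (f : V → V × (Option W × Option W)) (v : V) : Prop :=
  ∃ a a', a ≠ a' ∧ (f a).1 = v ∧ (f a').1 = v

/-- The cell `(i, j)` is used with two values. -/
def Dbl (zn : V → Zn) (f : V → V × (Option W × Option W)) (i j : ℕ) : Prop :=
  ∃ a a', zn (f a).1 = .cell i j ∧ zn (f a').1 = .cell i j ∧ (f a).2 ≠ (f a').2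

/-- The set of vertices which are exceptional in or next to the cell `(i, j)`. -/
def Exc (zn : V → Zn) (E : Set V) (i j : ℕ) : Set V :=
  {v | (v ∈ E ∧ zn v = .cell i j) ∨
    ∃ o i' j', zn v = .port o i' j' ∧ ((i, j) = (i', j') ∨ (i, j) = nx o i' j')}

/-- A layout far from all twins, with a set `E` of exceptional vertices. -/
structure FLay (k d : ℕ) (G : SimpleGraph V) (zn : V → Zn) (E : Set V) : Prop where
  lay : Lay0 k G zn
  tf : ∀ v, zn v ≠ .pin → ∀ u ∈ ball G 2 v, TFree d G u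
  u3 : ∀ v, zn v ≠ .pin → {u | G.Adj v u ∧ zn u ≠ .pin}.ncard ≤ 3
  u2 : ∀ v i j, v ∉ E → zn v = .cell i j → {u | G.Adj v u ∧ zn u ≠ .pin}.ncard ≤ 2
  size : ∀ i j, i < k → j < k →
    d ^ 3 * (Exc zn E i j).ncard < {v | v ∉ E ∧ zn v = .cell i j}.ncard

/-- A good model of the pattern: small classes, few neighbours inside the model. -/
structure GM (K : ℕ) (P : Par) (G : SimpleGraph V) (U : Set V) (ρ : V → Lab) : Prop where
  ip : IPat K P G U ρ
  c3 : ∀ x, {u | u ∈ U ∧ ρ u = x}.ncard ≤ 3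
  u3 : ∀ v ∈ U, {u | u ∈ U ∧ G.Adj v u}.ncard ≤ 3
  u2 : ∀ v ∈ U, (∀ i j e, e < 4 → ρ v ≠ .core i j (P.r i j e)) →
    {u | u ∈ U ∧ G.Adj v u}.ncard ≤ 2

end

/-- Zones for layouts far from twins: the cells are the cycles with the adjacent half legs, the
ports are the middle vertices of the legs. -/
def zlab2 (P : Par) : Lab → Zn
  | .core i j _ => .cell i j
  | .leg o i j s => if s < P.l o i j / 2 then .cell i j
      else if s = P.l o i j / 2 then .port o i j else .cell (nx o i j).1 (nx o i j).2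

/-- Shifted parameters. -/
def shP (P : Par) (a b : ℕ) : Par where
  z i j := P.z (a + i) (b + j)
  r i j e := P.r (a + i) (b + j) e
  l o i j := P.l o (a + i) (b + j)

/-- Shifted labels. -/
def shL (a b : ℕ) : Lab → Lab
  | .core i j s => .core (a + i) (b + j) s
  | .leg o i j s => .leg o (a + i) (b + j) s

/-- The labels of the block `(i, j)` of `q * q` cells. -/
def Blk (q i j : ℕ) : Lab → Prop
  | .core i' j' _ => i' / q = i ∧ j' / q = j
  | .leg o i' j' _ => i' / q = i ∧ j' / q = j ∧ (nx o i' j').1 / q = i ∧ (nx o i' j').2 / q = j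

/-- The upper row and the left column of the block `(i, j)`. -/
def Gam (q i j : ℕ) : Lab → Prop
  | .core i' j' s => Blk q i j (.core i' j' s) ∧ (i' % q = 0 ∨ j' % q = 0)
  | .leg false i' j' s => Blk q i j (.leg false i' j' s) ∧ i' % q = 0
  | .leg true i' j' s => Blk q i j (.leg true i' j' s) ∧ j' % q = 0

/-- The labels of the port `(o, i, j)` between blocks. -/
def Prt (q : ℕ) : Bool → ℕ → ℕ → Lab → Prop
  | false, i, j, .leg false i' j' _ => i' = q * i ∧ j' = q * j + (q - 1)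
  | true, i, j, .leg true i' j' _ => i' = q * i + (q - 1) ∧ j' = q * j
  | _, _, _, _ => False

/-! ## R: rigidity far from twins -/

/-- R1: a vertex over a vertex with a twin, far from all vertices which are used more than once,
has a twin. -/
def PR1 : Prop := ∀ {V W : Type} [Finite V] (k d : ℕ) (G : SimpleGraph V) (zn : V → Zn)
  (Γ : SimpleGraph W) (f : V → V × (Option W × Option W)), Sit k d d G zn Γ Set.univ f →
    (∀ v, dg G v = d) → 4 ≤ d → ∀ a, (∀ u ∈ ball G 2 (f a).1, ¬ Mul f u) → TFree d G a →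
      TFree d G (f a).1

/-- R2: two vertices over the same vertex of a cell are twins (uses A1). -/
def PR2 : Prop := ∀ {V W : Type} [Finite V] (k d : ℕ) (G : SimpleGraph V) (zn : V → Zn)
  (Γ : SimpleGraph W) (f : V → V × (Option W × Option W)), Sit k d d G zn Γ Set.univ f →
    (∀ v, dg G v = d) → ∀ a a' i j, a ≠ a' → (f a).1 = (f a').1 → zn (f a).1 = .cell i j →
      {u | G.Adj (f a).1 u ∧ zn u ≠ .pin}.ncard ≤ 2 → Tw d G a a'

/-- R3: the number of vertices over one vertex (uses A1). -/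
def PR3 : Prop := ∀ {V W : Type} [Finite V] (k d : ℕ) (G : SimpleGraph V) (zn : V → Zn)
  (Γ : SimpleGraph W) (f : V → V × (Option W × Option W)), Sit k d d G zn Γ Set.univ f →
    (∀ v, dg G v = d) → 4 ≤ d →
    (∀ v, zn v ≠ .pin → {u | G.Adj v u ∧ zn u ≠ .pin}.ncard ≤ 3) →
      ∀ v, {a | (f a).1 = v}.ncard ≤ d ^ 3

/-- R4: a port which is used more than once is next to a cell with two values. -/
def PR4 : Prop := ∀ {V W : Type} [Finite V] (k d : ℕ) (G : SimpleGraph V) (zn : V → Zn)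
  (Γ : SimpleGraph W) (f : V → V × (Option W × Option W)), Sit k d d G zn Γ Set.univ f →
    (∀ v, dg G v = d) → ∀ v o i j, zn v = .port o i j → Mul f v →
      Dbl zn f i j ∨ Dbl zn f (nx o i j).1 (nx o i j).2

/-- R5: in a cell with two values all vertices are used more than once; pinned vertices are used
at most once; a vertex of a cell which is used more than once has two values (uses A1). -/
def PR5 : Prop := ∀ {V W : Type} [Finite V] (k d : ℕ) (G : SimpleGraph V) (zn : V → Zn)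
  (Γ : SimpleGraph W) (f : V → V × (Option W × Option W)), Sit k d d G zn Γ Set.univ f →
    (∀ v, dg G v = d) → (∀ i j, Dbl zn f i j → ∀ c, zn c = .cell i j → Mul f c) ∧
      (∀ v, zn v = .pin → ¬ Mul f v) ∧
      (∀ v i j, zn v = .cell i j → Mul f v → Dbl zn f i j)

/-- R6: counting vertices without twins (uses R1, R2, R3, R5, V0). -/
def PR6 : Prop := ∀ {V W : Type} [Finite V] (k d : ℕ) (G : SimpleGraph V) (zn : V → Zn)
  (Γ : SimpleGraph W) (f : V → V × (Option W × Option W)) (E : Set V),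
  Sit k d d G zn Γ Set.univ f → (∀ v, dg G v = d) → 4 ≤ d → FLay k d G zn E →
    {v | Mul f v}.ncard ≤
      d ^ 3 * {v | Mul f v ∧ (v ∈ E ∨ ∃ o i j, zn v = .port o i j)}.ncard

/-- R7: every cell has at most one value (uses R4, R5, R6). -/
def PR7 : Prop := ∀ {V W : Type} [Finite V] (k d : ℕ) (G : SimpleGraph V) (zn : V → Zn)
  (Γ : SimpleGraph W) (f : V → V × (Option W × Option W)) (E : Set V),
  Sit k d d G zn Γ Set.univ f → (∀ v, dg G v = d) → 4 ≤ d → FLay k d G zn E → Uv zn Set.univ f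

/-! ## L: patterns and layouts -/

/-- L0: a vertex of the pattern which is not a root has only two neighbours; the legs are long. -/
def PL0 : Prop := ∀ (K : ℕ) (P : Par), Adm K P →
  (∀ x, (∀ i j e, e < 4 → x ≠ .core i j (P.r i j e)) →
    ∃ a b, ∀ y, AAdj K P x y → y = a ∨ y = b) ∧
  (∀ o i j, Ex K o i j → 2 * K ^ 2 ≤ P.l o i j)

/-- L1: the pruned model (uses P0, F1, F2a, L0). -/
def PL1 : Prop := ∀ {V : Type} [Finite V] (G : SimpleGraph V), (∀ v, Sat G v) →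
  ∀ (K : ℕ) (P : Par), Adm K P → PatIn K P (quo G (cl G)) → ∃ U ρ, GM K P G U ρ

/-- L2: shifted patterns. -/
def PL2 : Prop := ∀ (K k : ℕ) (P : Par) (a b : ℕ), Adm K P → a + k ≤ K → b + k ≤ K →
  Adm k (shP P a b) ∧ (∀ x y, shL a b x = shL a b y → x = y) ∧
  (∀ x, Vx k (shP P a b) x → Vx K P (shL a b x)) ∧
  (∀ x y, AAdj k (shP P a b) x y → AAdj K P (shL a b x) (shL a b y)) ∧
  (∀ x y, Vx k (shP P a b) x → Vx k (shP P a b) y → AAdj K P (shL a b x) (shL a b y) →
    AAdj k (shP P a b) x y)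

/-- L3: shifted models (uses L2). -/
def PL3 : Prop := ∀ {V : Type} [Finite V] (K k : ℕ) (P : Par) (a b : ℕ) (G : SimpleGraph V)
  (U : Set V) (ρ : V → Lab), Adm K P → a + k ≤ K → b + k ≤ K → GM K P G U ρ →
    ∃ ρ' : V → Lab, GM k (shP P a b) G
      {u | u ∈ U ∧ ∃ x, Vx k (shP P a b) x ∧ ρ u = shL a b x} ρ' ∧
      ∀ u, ∀ x, ρ u = shL a b x → ρ' u = x

/-- L4: zones far from twins, on the level of the pattern. -/
def PL4 : Prop := ∀ (k : ℕ) (P : Par), Adm k P →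
  (∀ x i j, Vx k P x → zlab2 P x = .cell i j → i < k ∧ j < k) ∧
  (∀ x o i j, Vx k P x → zlab2 P x = .port o i j → Ex k o i j ∧ x = .leg o i j (P.l o i j / 2)) ∧
  (∀ x y i j i' j', AAdj k P x y → zlab2 P x = .cell i j → zlab2 P y = .cell i' j' →
    i = i' ∧ j = j') ∧
  (∀ x y o i j o' i' j', AAdj k P x y → zlab2 P x = .port o i j → zlab2 P y ≠ .port o' i' j') ∧
  (∀ x y o i j i' j', AAdj k P x y → zlab2 P x = .port o i j → zlab2 P y = .cell i' j' →
    (i', j') = (i, j) ∨ (i', j') = nx o i j) ∧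
  (∀ i j, i < k → j < k → ∀ x y, Vx k P x → Vx k P y → zlab2 P x = .cell i j →
    zlab2 P y = .cell i j →
    Relation.ReflTransGen (fun a b => AAdj k P a b ∧ zlab2 P a = .cell i j ∧
      zlab2 P b = .cell i j) x y) ∧
  (∀ o i j, Ex k o i j → Vx k P (.leg o i j (P.l o i j / 2)) ∧
    zlab2 P (.leg o i j (P.l o i j / 2)) = .port o i j ∧
    (∃ y, AAdj k P (.leg o i j (P.l o i j / 2)) y ∧ zlab2 P y = .cell i j) ∧
    ∃ y, AAdj k P (.leg o i j (P.l o i j / 2)) y ∧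
      zlab2 P y = .cell (nx o i j).1 (nx o i j).2)

/-- L5: the layout far from twins (uses L4, F3d, P0). -/
def PL5 : Prop := ∀ {V : Type} [Finite V] (k d : ℕ) (P : Par) (G : SimpleGraph V) (U : Set V)
  (ρ : V → Lab), 2 ≤ k → Adm k P → GM k P G U ρ →
  (∀ o i j, Ex k o i j → 48 * d ^ 3 + 4 ≤ P.l o i j) →
  (∀ u ∈ U, ∀ v ∈ ball G 2 u, TFree d G v) → ∃ (zn : V → Zn) (E : Set V), FLay k d G zn E

/-- L6: the star lemma. -/
def PL6 : Prop := ∀ {V : Type} [Finite V] (G : SimpleGraph V) (B R : Set V) (z z' : V) (m : ℕ),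
  (G.induce B).Connected → (G.induce R).Connected → R ⊆ B → z ≠ z' → z ∈ B \ R → z' ∈ B \ R →
  G.neighborSet z ∩ G.neighborSet z' ⊆ B \ R →
  m ≤ (G.neighborSet z ∩ G.neighborSet z').ncard → 1 ≤ m →
    ∃ C : Set V, R ⊆ C ∧ C ⊆ B ∧ (G.induce C).Connected ∧
      ∃ z0, (z0 = z ∨ z0 = z') ∧ z0 ∉ C ∧ m ≤ {v | G.Adj z0 v ∧ v ∈ C}.ncard

/-- L7: blocks and their upper left borders are connected. -/
def PL7 : Prop := ∀ (k q : ℕ) (P : Par), 2 ≤ q → Adm (k * q) P → ∀ i j, i < k → j < k →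
  (∀ x y, Vx (k * q) P x → Vx (k * q) P y → Blk q i j x → Blk q i j y →
    Relation.ReflTransGen (fun a b => AAdj (k * q) P a b ∧ Blk q i j a ∧ Blk q i j b) x y) ∧
  (∀ x y, Vx (k * q) P x → Vx (k * q) P y → Gam q i j x → Gam q i j y →
    Relation.ReflTransGen (fun a b => AAdj (k * q) P a b ∧ Gam q i j a ∧ Gam q i j b) x y) ∧
  (∃ x, Vx (k * q) P x ∧ Gam q i j x)

/-- L8: ports between blocks. -/
def PL8 : Prop := ∀ (k q : ℕ) (P : Par), 2 ≤ q → Adm (k * q) P → ∀ o i j, Ex k o i j →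
  (∀ x y, Vx (k * q) P x → Vx (k * q) P y → Prt q o i j x → Prt q o i j y →
    Relation.ReflTransGen (fun a b => AAdj (k * q) P a b ∧ Prt q o i j a ∧ Prt q o i j b) x y) ∧
  (∃ x y, AAdj (k * q) P x y ∧ Prt q o i j x ∧ Gam q i j y) ∧
  (∃ x y, AAdj (k * q) P x y ∧ Prt q o i j x ∧ Gam q (nx o i j).1 (nx o i j).2 y)

/-- L9: adjacency between blocks and ports. -/
def PL9 : Prop := ∀ (k q : ℕ) (P : Par), 2 ≤ q → Adm (k * q) P →
  (∀ x i j, Vx (k * q) P x → Blk q i j x → i < k ∧ j < k) ∧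
  (∀ x o i j, Vx (k * q) P x → Prt q o i j x → Ex k o i j) ∧
  (∀ x i j i' j', Blk q i j x → Blk q i' j' x → i = i' ∧ j = j') ∧
  (∀ x o i j o' i' j', Prt q o i j x → Prt q o' i' j' x → o = o' ∧ i = i' ∧ j = j') ∧
  (∀ x o i j i' j', Prt q o i j x → ¬ Blk q i' j' x) ∧
  (∀ x y i j i' j', AAdj (k * q) P x y → Blk q i j x → Blk q i' j' y → i = i' ∧ j = j') ∧
  (∀ x y o i j o' i' j', AAdj (k * q) P x y → Prt q o i j x → Prt q o' i' j' y →
    o = o' ∧ i = i' ∧ j = j') ∧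
  (∀ x y o i j i' j', AAdj (k * q) P x y → Prt q o i j x → Blk q i' j' y →
    (i', j') = (i, j) ∨ (i', j') = nx o i j)

/-- L10: the layout with a pair of twins in every block (uses L6, L7, L8, L9, F3d). -/
def PL10 : Prop := ∀ {V : Type} [Finite V] (k q m : ℕ) (P : Par) (G : SimpleGraph V)
  (U : Set V) (ρ : V → Lab), 2 ≤ q → 1 ≤ m → Adm (k * q) P → IPat (k * q) P G U ρ →
  (∀ i j, i < k → j < k → ∃ z z', z ≠ z' ∧ m ≤ (G.neighborSet z ∩ G.neighborSet z').ncard ∧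
    ∀ v, (v = z ∨ v = z' ∨ (G.Adj z v ∧ G.Adj z' v)) →
      v ∈ U ∧ Blk q i j (ρ v) ∧ ¬ Gam q i j (ρ v)) →
  ∃ zn : V → Zn, Lay0 k G zn ∧
    ∀ i j, i < k → j < k → ∃ z0, zn z0 = .pin ∧ m ≤ {v | G.Adj z0 v ∧ zn v = .cell i j}.ncard

/-- L11: the labels of the pattern shifted into a block avoid its upper left border. -/
def PL11 : Prop := ∀ (k q k1 : ℕ) (P : Par) (i j : ℕ), 2 ≤ q → k1 + 1 ≤ q → i < k → j < k →
  ∀ x, Vx k1 (shP P (q * i + 1) (q * j + 1)) x →
    Vx (k * q) P (shL (q * i + 1) (q * j + 1) x) ∧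
    Blk q i j (shL (q * i + 1) (q * j + 1) x) ∧ ¬ Gam q i j (shL (q * i + 1) (q * j + 1) x)

/-! ## V: contraction of the surroundings of twins -/

/-- V0: balls. -/
def PV0 : Prop := ∀ {V : Type} (G : SimpleGraph V),
  (∀ r u v, u ∈ ball G r v → v ∈ ball G r u) ∧
  (∀ r s u v w, u ∈ ball G r v → w ∈ ball G s u → w ∈ ball G (r + s) v) ∧
  (∀ r s v, r ≤ s → ball G r v ⊆ ball G s v)

/-- V1: a maximal set of vertices of `T` with disjoint balls (uses V0). -/
def PV1 : Prop := ∀ {V : Type} [Finite V] (G : SimpleGraph V) (T : Set V), ∃ Z : Set V, Z ⊆ T ∧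
  (∀ u ∈ Z, ∀ v ∈ Z, u ≠ v → Disjoint (ball G 2 u) (ball G 2 v)) ∧
  ∀ t ∈ T, ¬ Disjoint (ball G 4 t) Z

/-- V2: the contraction (uses V0, S3a). -/
def PV2 : Prop := ∀ {V : Type} [Finite V] (G : SimpleGraph V) (d : ℕ) (Z : Set V),
  (∀ v, dg G v ≤ d) →
  (∀ u ∈ Z, ∀ v ∈ Z, u ≠ v → Disjoint (ball G 2 u) (ball G 2 v)) → ∃ π : V → V,
    (∀ x, (G.induce (π ⁻¹' {π x})).Connected) ∧ (∀ a, (π ⁻¹' {a}).ncard ≤ (d + 1) ^ 6) ∧
    (∀ z ∈ Z, ball G 2 z ⊆ π ⁻¹' {z}) ∧
    ∀ x, π x ∉ Z → π x = x ∧ π ⁻¹' {x} = {x} ∧ Disjoint (ball G 6 x) Z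

/-- V3: degrees in the quotient. -/
def PV3 : Prop := ∀ {V : Type} [Finite V] (G : SimpleGraph V) (π : V → V) (d s : ℕ),
  (∀ v, dg G v ≤ d) → (∀ a, (π ⁻¹' {a}).ncard ≤ s) → ∀ a, dg (quo G π) a ≤ s * d

/-- V4: models in the quotient give models in the graph. -/
def PV4 : Prop := ∀ {V : Type} [Finite V] (G : SimpleGraph V) (π : V → V) (K : ℕ) (P : Par)
  (U : Set V) (ρ : V → Lab), (∀ x, (G.induce (π ⁻¹' {π x})).Connected) →
  (∀ u ∈ U, ∃ x, π x = u) → IPat K P (quo G π) U ρ →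
    IPat K P G (π ⁻¹' U) (fun x => ρ (π x))

/-- V5: models which consist of classes with one element. -/
def PV5 : Prop := ∀ {V : Type} [Finite V] (G : SimpleGraph V) (π : V → V) (K : ℕ) (P : Par)
  (U : Set V) (ρ : V → Lab), (∀ u ∈ U, π u = u ∧ π ⁻¹' {u} = {u}) → GM K P (quo G π) U ρ →
    GM K P G U ρ

/-- V6: good models in restrictions (uses P0; compare F4). -/
def PV6 : Prop := ∀ {V : Type} [Finite V] (G : SimpleGraph V) (S : Set V) (K : ℕ) (P : Par)
  (U : Set V) (ρ : V → Lab), Adm K P → GM K P (rs G S) U ρ → U ⊆ S ∧ GM K P G U ρ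

/-- K1: the case of one cell. -/
def PK1 : Prop := ∀ {V : Type} [Finite V] (G : SimpleGraph V), (∃ u v, G.Adj u v) →
  ∃ ζ : V → ZB, ∀ {W : Type} (Γ : SimpleGraph W), Kq 1 Γ ↔ Embeds G (host G ζ Γ)

end Pool.Agent.PReg
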