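import Pool.Agent.Work.MP_cfa43e_lc.Reg.Defs

/-!
# Graphs whose core has a large thin part: items

Every item is a `Prop` `PXn`; it is to be proved as `theorem Xn : PXn` (or
`theorem Xn (h : PYm) ... : PXn` if it uses other items) in the file `Reg/Xn.lean`.
-/

set_option autoImplicit false

namespace Pool.Agent.PReg

open Pool.Agent.PEmb

/-! ## A: rigidity -/

/-- A0: the core is mapped into the core. -/
def PA0 : Prop := ∀ {V W : Type} [Finite V] (k δ Δ : ℕ) (G : SimpleGraph V) (zn : V → Zn)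
  (Γ : SimpleGraph W) (X : Set V) (f : V → V × (Option W × Option W)), Sit k δ Δ G zn Γ X f →
    ∀ a ∈ X, (f a).1 ∈ X

/-- A1: a vertex mapped into a cell uses all neighbours. -/
def PA1 : Prop := ∀ {V W : Type} [Finite V] (k δ Δ : ℕ) (G : SimpleGraph V) (zn : V → Zn)
  (Γ : SimpleGraph W) (X : Set V) (f : V → V × (Option W × Option W)), Sit k δ Δ G zn Γ X f →
    ∀ a ∈ X, ∀ i j, zn (f a).1 = .cell i j → ∀ c, G.Adj (f a).1 c →
      ∃ b ∈ X, G.Adj a b ∧ (f b).1 = c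

/-- A2: locked cells have at most one value (uses A1). -/
def PA2 : Prop := ∀ {V W : Type} [Finite V] (k δ Δ : ℕ) (G : SimpleGraph V) (zn : V → Zn)
  (Γ : SimpleGraph W) (X : Set V) (f : V → V × (Option W × Option W)), Sit k δ Δ G zn Γ X f →
    Lck k Δ G zn → Uv zn X f

/-- A3: a vertex mapped into a port uses all neighbours. -/
def PA3 : Prop := ∀ {V W : Type} [Finite V] (k δ Δ : ℕ) (G : SimpleGraph V) (zn : V → Zn)
  (Γ : SimpleGraph W) (X : Set V) (f : V → V × (Option W × Option W)), Sit k δ Δ G zn Γ X f →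
    Uv zn X f → ∀ a ∈ X, ∀ o i j, zn (f a).1 = .port o i j → ∀ c, G.Adj (f a).1 c →
      ∃ b ∈ X, G.Adj a b ∧ (f b).1 = c

/-- A4: every vertex of the core is used (uses A0, A3). -/
def PA4 : Prop := ∀ {V W : Type} [Finite V] (k δ Δ : ℕ) (G : SimpleGraph V) (zn : V → Zn)
  (Γ : SimpleGraph W) (X : Set V) (f : V → V × (Option W × Option W)), Sit k δ Δ G zn Γ X f →
    Uv zn X f → ∀ c ∈ X, ∃ a ∈ X, (f a).1 = c

/-- A5: an embedding with at most one value for every cell gives a clique (uses A3, A4). -/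
def PA5 : Prop := ∀ {V W : Type} [Finite V] (k δ Δ : ℕ) (G : SimpleGraph V) (zn : V → Zn)
  (Γ : SimpleGraph W) (X : Set V) (f : V → V × (Option W × Option W)), Sit k δ Δ G zn Γ X f →
    Uv zn X f → Kq k Γ

/-- A6: a clique gives an embedding. -/
def PA6 : Prop := ∀ {V W : Type} (k : ℕ) (G : SimpleGraph V) (zn : V → Zn) (Γ : SimpleGraph W),
  Lay0 k G zn → Kq k Γ → Embeds G (host G (fun v => zb (zn v)) Γ)

/-! ## B: the reduction -/

/-- B1: words. -/
def PB1 : Prop := (∀ {α : Type} (l : List α) (n : ℕ) (w : List α),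
    w ∈ wordsOf l n ↔ w.length = n ∧ ∀ x ∈ w, x ∈ l) ∧
  ∀ {α : Type} [Primcodable α], Primrec₂ (wordsOf : List α → ℕ → List (List α))

/-- B2: `p`-CLIQUE is primitive recursive (uses B1). -/
def PB2 : Prop := PrimrecPred fun p : Code × ℕ => Clique p

/-- B3: the graph of pairs is primitive recursive. -/
def PB3 : Prop := Primrec fun p : Code × Code => prod p.1 p.2

/-- B4: the embedding problem is primitive recursive (uses M3 of the first theorem, B2, B3). -/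
def PB4 : Prop := PrimrecPred fun p : Code × Code => Embeds (graph p.1) (graph p.2)

/-- B5: the code of the host is primitive recursive. -/
def PB5 : Prop := Primrec fun p : List (List Bool) × Code => hCode2 p.1 p.2

/-- B6: the code of the host is a code of the host. -/
def PB6 : Prop := ∀ (A : Code) (Z : List (List Bool)) (G : Code), Z.length = A.length →
  (Embeds (graph A) (graph (hCode2 (A ++ Z) G)) ↔
    Embeds (graph A) (host (graph A) (fun v => zbOf (Z.getD v.1 [])) (graph G)))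

/-- B7: only small graphs `Γ` matter. -/
def PB7 : Prop := ∀ {V : Type} [Finite V] (k : ℕ) (G : SimpleGraph V) (ζ : V → ZB),
  Embeds G (host G ζ (⊤ : SimpleGraph (Fin k))) →
  (∀ n, n ≤ 2 * Nat.card V → ∀ Γ : SimpleGraph (Fin n), Embeds G (host G ζ Γ) → Kq k Γ) →
    ∀ {W : Type} (Γ : SimpleGraph W), Kq k Γ ↔ Embeds G (host G ζ Γ)

/-- B8: the property `Good` is primitive recursive (uses B1, B2, B4, B5). -/
def PB8 : Prop := PrimrecPred fun p : ℕ × (Code × List (List Bool)) => Good p.1 p.2.1 p.2.2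

/-- B9: the meaning of `Good` (uses B1, B6, B7, B12). -/
def PB9 : Prop := ∀ (k : ℕ) (A : Code) (Z : List (List Bool)), Good k A Z → ∀ G : Code,
  Clique (G, k) ↔ Embeds (graph A) (graph (hCode2 (A ++ Z) G))

/-- B10: good zones exist (uses B6, B12). -/
def PB10 : Prop := ∀ (k : ℕ) (A : Code) (ζ : Fin A.length → ZB),
  (∀ (n : ℕ) (Γ : SimpleGraph (Fin n)), Kq k Γ ↔ Embeds (graph A) (host (graph A) ζ Γ)) →
    ∃ Z, Good k A Z

/-- B11: the reduction is computed in polynomial time. -/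
def PB11 : Prop := N68a2faeb.IsPolyTime red2

/-- B12: cliques. -/
def PB12 : Prop := ∀ (G : Code) (k : ℕ), Clique (G, k) ↔ Kq k (graph G)

/-- B: the framework (from B8, B9, B10, B11, Q11 of the first theorem). -/
def PB : Prop := ∀ C : Code → Prop, ComputablePred C →
  (∀ k, ∃ A, C A ∧ ∃ ζ : Fin A.length → ZB, ∀ (n : ℕ) (Γ : SimpleGraph (Fin n)),
    Kq k Γ ↔ Embeds (graph A) (host (graph A) ζ Γ)) →
  FptReducible Clique cliqueParam (Emb C) embParam

/-! ## S: induced subgraphs in which all vertices are satisfied -/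

/-- S1: tree width of quotients with small classes. -/
def PS1 : Prop := ∀ {V V' : Type} (G : SimpleGraph V) (π : V → V') (s w : ℕ),
  (∀ a, (π ⁻¹' {a}).encard ≤ s) → TreeWidthLE (quo G π) w → TreeWidthLE G (s * (w + 1))

/-- S2a: subtrees of a tree which intersect pairwise have a common vertex. -/
def PS2a : Prop := ∀ {T ι : Type} [Finite ι] (t : SimpleGraph T), t.IsTree → ∀ S : ι → Set T,
  (∀ i, (t.induce (S i)).Connected) → (∀ i j, (S i ∩ S j).Nonempty) → ∃ x, ∀ i, x ∈ S i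

/-- S2b: in a tree decomposition the parts which meet a connected set form a subtree. -/
def PS2b : Prop := ∀ {V T : Type} (G : SimpleGraph V) (t : SimpleGraph T) (bag : T → Set V),
  (∀ v, (t.induce {x | v ∈ bag x}).Connected) →
  (∀ u v, G.Adj u v → ∃ x, u ∈ bag x ∧ v ∈ bag x) →
  ∀ S : Set V, (G.induce S).Connected → (t.induce {x | (bag x ∩ S).Nonempty}).Connected

/-- S2: a graph with a `K × K` grid minor has tree width at least `K - 1` (uses S2a, S2b). -/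
def PS2 : Prop := ∀ {V : Type} (G : SimpleGraph V) (w K : ℕ) (B : ℕ → ℕ → Set V),
  TreeWidthLE G w → Grid G K B → K ≤ w + 1

/-- S3a: the size of balls. -/
def PS3a : Prop := ∀ {V : Type} [Finite V] (G : SimpleGraph V) (d : ℕ), (∀ v, dg G v ≤ d) →
  ∀ r v, (ball G r v).ncard ≤ (d + 1) ^ r

/-- S3b: greedy colouring of a symmetric relation. -/
def PS3b : Prop := ∀ {V : Type} [Finite V] (R : V → V → Prop) (N : ℕ), (∀ u v, R u v → R v u) →
  (∀ v, {u | u ≠ v ∧ R u v}.ncard ≤ N) →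
    ∃ c : V → ℕ, (∀ v, c v ≤ N) ∧ ∀ u v, u ≠ v → R u v → c u ≠ c v

/-- S3: a colouring such that the balls of radius `2` of vertices of the same colour are disjoint
(uses S3a, S3b). -/
def PS3 : Prop := ∀ {V : Type} [Finite V] (G : SimpleGraph V) (d : ℕ), (∀ v, dg G v ≤ d) →
  ∃ c : V → ℕ, (∀ v, c v ≤ (d + 1) ^ 4) ∧
    ∀ u v, u ≠ v → c u = c v → Disjoint (ball G 2 u) (ball G 2 v)

/-- `J` is a minimal connected set which contains `T`. -/
structure MinC {V : Type} (G : SimpleGraph V) (J T : Set V) : Prop where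
  conn : (G.induce J).Connected
  sub : T ⊆ J
  min : ∀ J' : Set V, J' ⊆ J → T ⊆ J' → (G.induce J').Connected → J' = J

/-- The component of `y` in `G - x` restricted to `J`. -/
def cmpt {V : Type} (G : SimpleGraph V) (J : Set V) (x y : V) : Set V :=
  {z | z ∈ J ∧ z ≠ x ∧ (rs G (J \ {x})).Reachable y z}

/-- S4a: facts about minimal connected sets. -/
def PS4a : Prop := ∀ {V : Type} [Finite V] (G : SimpleGraph V) (J T : Set V), MinC G J T →
  ∀ v ∈ J, v ∉ T →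
    (∀ y ∈ J, y ≠ v → (∃ a ∈ cmpt G J v y, G.Adj v a) ∧ (∃ t ∈ T, t ∈ cmpt G J v y)) ∧
    (∀ y ∈ J, y ≠ v → ∃ z ∈ J, z ≠ v ∧ z ∉ cmpt G J v y)

/-- S4b: a component with one terminal contains one neighbour, of degree at most two. -/
def PS4b : Prop := ∀ {V : Type} [Finite V] (G : SimpleGraph V) (J T : Set V), MinC G J T →
  ∀ v ∈ J, v ∉ T → (∀ t ∈ T, ¬ G.Adj v t) → ∀ y ∈ J, y ≠ v →
    (∀ t ∈ T, ∀ t' ∈ T, t ∈ cmpt G J v y → t' ∈ cmpt G J v y → t = t') →
    ∃ a ∈ cmpt G J v y, G.Adj v a ∧ (∀ b ∈ cmpt G J v y, G.Adj v b → b = a) ∧ dg (rs G J) a ≤ 2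

/-- S4c: a component with two terminals contains one neighbour or two adjacent neighbours
(uses S4a). -/
def PS4c : Prop := ∀ {V : Type} [Finite V] (G : SimpleGraph V) (J T : Set V), MinC G J T →
  T.ncard ≤ 3 → ∀ v ∈ J, v ∉ T → (∀ t ∈ T, ¬ G.Adj v t) → ∀ y ∈ J, y ≠ v →
    (∃ a ∈ cmpt G J v y, G.Adj v a ∧ ∀ b ∈ cmpt G J v y, G.Adj v b → b = a) ∨
    (∃ a ∈ cmpt G J v y, ∃ b ∈ cmpt G J v y, a ≠ b ∧ G.Adj v a ∧ G.Adj v b ∧ G.Adj a b ∧
      ∀ c ∈ cmpt G J v y, G.Adj v c → c = a ∨ c = b)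

/-- S4: the structure lemma (uses S4a, S4b, S4c). -/
def PS4 : Prop := ∀ {V : Type} [Finite V] (G : SimpleGraph V) (J T : Set V), MinC G J T →
  T.ncard ≤ 3 → ∀ v, v ∉ T → (∀ t ∈ T, ¬ G.Adj v t) → Sat (rs G J) v

/-- S5: restriction preserves satisfied vertices; composition of restrictions. -/
def PS5 : Prop := ∀ {V : Type} [Finite V] (G : SimpleGraph V) (S S' : Set V),
  (∀ v, Sat G v → Sat (rs G S) v) ∧ rs (rs G S) S' = rs G (S ∩ S') ∧
    ∀ v, dg (rs G S) v ≤ dg G v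

/-- P0: neighbours in the pattern. -/
def PP0 : Prop := ∀ (k : ℕ) (P : Par), Adm k P →
  (∀ x y, AAdj k P x y → Vx k P x ∧ Vx k P y ∧ x ≠ y) ∧
  (∀ x, Vx k P x → ∃ y z, y ≠ z ∧ AAdj k P x y ∧ AAdj k P x z) ∧
  (∀ x, ∃ a b c, ∀ y, AAdj k P x y → y = a ∨ y = b ∨ y = c)

/-- S6: the image of the pattern is a subgraph of degree at most `3` with a grid minor
(uses P0). -/
def PS6 : Prop := ∀ {V : Type} (G : SimpleGraph V) (k : ℕ) (P : Par), Adm k P → PatIn k P G →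
  ∃ H : SimpleGraph V, H ≤ G ∧ (∀ v, (H.neighborSet v).encard ≤ 3) ∧ ∃ B, Grid H k B

/-- S7: lifting a grid minor through a quotient. -/
def PS7 : Prop := ∀ {V V' : Type} (G : SimpleGraph V) (π : V → V') (H : SimpleGraph V')
  (J : V' → Set V) (k : ℕ) (B : ℕ → ℕ → Set V'), (∀ a, J a ⊆ π ⁻¹' {a}) →
  (∀ a b, H.Adj a b → (G.induce (J a)).Connected) →
  (∀ a b, H.Adj a b → ∃ x ∈ J a, ∃ y ∈ J b, G.Adj x y) → 2 ≤ k → Grid H k B →
    ∃ B', Grid (rs G {x | ∃ a b, H.Adj a b ∧ x ∈ J a}) k B'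

/-- S8: minimal connected sets exist. -/
def PS8 : Prop := ∀ {V : Type} [Finite V] (G : SimpleGraph V) (K T : Set V),
  (G.induce K).Connected → T ⊆ K → ∃ J, J ⊆ K ∧ MinC G J T

/-- The excluded grid theorem (landed in `Tools/GridThm`). -/
def PGr : Prop := ∀ K : ℕ, ∃ w : ℕ, ∀ {V : Type} [Finite V] (G : SimpleGraph V),
  ¬ TreeWidthLE G w → ∃ B, Grid G K B

/-- S9a: balls are connected; an edge with an end in `ball 1 v` has both ends in `ball 2 v`. -/
def PS9a : Prop := ∀ {V : Type} (G : SimpleGraph V) (v : V),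
  (∀ r, (G.induce (ball G r v)).Connected) ∧
  (∀ x y, (x = v ∨ G.Adj v x) → G.Adj x y → x ∈ ball G 2 v ∧ y ∈ ball G 2 v)

/-- S9b: the choice of connected sets for a subcubic subgraph of the quotient (uses S8). -/
def PS9b : Prop := ∀ {V V' : Type} [Finite V] (G : SimpleGraph V) (π : V → V')
  (H : SimpleGraph V'), H ≤ quo G π → (∀ a, (H.neighborSet a).encard ≤ 3) →
  (∀ x, (G.induce (π ⁻¹' {π x})).Connected) →
    ∃ J T : V' → Set V, (∀ a, J a ⊆ π ⁻¹' {a}) ∧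
      (∀ a b, H.Adj a b → MinC G (J a) (T a)) ∧ (∀ a, (T a).ncard ≤ 3) ∧
      (∀ a, ∀ t ∈ T a, ∃ u, G.Adj t u ∧ π u ≠ a) ∧
      (∀ a b, H.Adj a b → ∃ x ∈ J a, ∃ y ∈ J b, G.Adj x y)

/-- S9: one round (uses S1, S2, PGr, PE23, S3a, S4, S6, S7, S9a, S9b). -/
def PS9 : Prop := ∀ d k : ℕ, ∃ K : ℕ, ∀ {V : Type} [Finite V] (G : SimpleGraph V) (I : Set V),
  (∀ v, dg G v ≤ d) → (∀ u ∈ I, ∀ v ∈ I, u ≠ v → Disjoint (ball G 2 u) (ball G 2 v)) →
  ∀ B, Grid G K B → ∃ S : Set V, (∃ B', Grid (rs G S) k B') ∧ ∀ v ∈ I, Sat (rs G S) v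

/-- S: all rounds (uses S3, S5, S9). -/
def PS : Prop := ∀ d k : ℕ, ∃ K : ℕ, ∀ {V : Type} [Finite V] (G : SimpleGraph V),
  (∀ v, dg G v ≤ d) → ∀ B, Grid G K B → ∃ S : Set V, (∃ B', Grid (rs G S) k B') ∧
    ∀ v, Sat (rs G S) v

/-! ## F: layouts -/

/-- F1: the classes. -/
def PF1 : Prop := ∀ {V : Type} [Finite V] (G : SimpleGraph V), (∀ v, Sat G v) →
  Equivalence (Eqv G) ∧ (∀ x, (cl G x).ncard ≤ 3) ∧
    ∀ x y, G.Adj x y → ¬ Eqv G x y → (dg G x ≤ 2 ∧ cl G x = {x}) ∨ (dg G y ≤ 2 ∧ cl G y = {y})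

/-- F2a: a pattern in the quotient is an induced model (uses F1, P0). -/
def PF2a : Prop := ∀ {V : Type} [Finite V] (G : SimpleGraph V), (∀ v, Sat G v) →
  ∀ (K : ℕ) (P : Par) (φ : Lab → Set V), Adm K P →
  (∀ x y, Vx K P x → Vx K P y → φ x = φ y → x = y) →
  (∀ x y, AE K P x y → (quo G (cl G)).Adj (φ x) (φ y)) →
  ∀ ρ : V → Lab, (∀ x, Vx K P x → ∀ u ∈ φ x, ρ u = x) →
    IPat K P G {u | ∃ x, Vx K P x ∧ u ∈ φ x} ρ ∧
      ∀ u, (∃ x, Vx K P x ∧ u ∈ φ x) → ∀ v, (ρ v = ρ u ∧ ∃ x, Vx K P x ∧ v ∈ φ x) ↔ Eqv G u v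

/-- F2b: lock vertices (uses F1, P0). -/
def PF2b : Prop := ∀ {V : Type} [Finite V] (G : SimpleGraph V), (∀ v, Sat G v) →
  ∀ (K : ℕ) (P : Par) (U : Set V) (ρ : V → Lab), Adm K P → IPat K P G U ρ →
  (∀ u ∈ U, ∀ v, (ρ v = ρ u ∧ v ∈ U) ↔ Eqv G u v) → RL K P G U ρ

/-- F2: an induced model of the pattern in a graph with satisfied vertices
(uses F1, F2a, F2b). -/
def PF2 : Prop := ∀ {V : Type} [Finite V] (G : SimpleGraph V), (∀ v, Sat G v) →
  ∀ (K : ℕ) (P : Par), Adm K P → PatIn K P (quo G (cl G)) → ∃ U ρ, IPat K P G U ρ ∧ RL K P G U ρ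

/-- F3a: a block without its root is connected. -/
def PF3a : Prop := ∀ (k : ℕ) (P : Par), Adm (2 * k) P → ∀ i j, i < k → j < k →
  ∀ x y, Vx (2 * k) P x → Vx (2 * k) P y → zlab x = .cell i j → zlab y = .cell i j →
    x ≠ rt0 P i j → y ≠ rt0 P i j →
    Relation.ReflTransGen (fun a b => AAdj (2 * k) P a b ∧ zlab a = .cell i j ∧
      zlab b = .cell i j ∧ a ≠ rt0 P i j ∧ b ≠ rt0 P i j) x y

/-- F3b: ports are connected and not empty. -/
def PF3b : Prop := ∀ (k : ℕ) (P : Par), Adm (2 * k) P → ∀ o i j, Ex k o i j →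
  (∀ x y, Vx (2 * k) P x → Vx (2 * k) P y → zlab x = .port o i j → zlab y = .port o i j →
    Relation.ReflTransGen (fun a b => AAdj (2 * k) P a b ∧ zlab a = .port o i j ∧
      zlab b = .port o i j) x y) ∧
  (∃ x y, AAdj (2 * k) P x y ∧ zlab x = .port o i j ∧ zlab y = .cell i j ∧ y ≠ rt0 P i j) ∧
  (∃ x y, AAdj (2 * k) P x y ∧ zlab x = .port o i j ∧
    zlab y = .cell (nx o i j).1 (nx o i j).2 ∧ y ≠ rt0 P (nx o i j).1 (nx o i j).2)

/-- F3c: zones of neighbours in the pattern. -/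
def PF3c : Prop := ∀ (k : ℕ) (P : Par), Adm (2 * k) P →
  (∀ x i j, Vx (2 * k) P x → zlab x = .cell i j → i < k ∧ j < k) ∧
  (∀ x o i j, Vx (2 * k) P x → zlab x = .port o i j → Ex k o i j) ∧
  (∀ x y i j i' j', AAdj (2 * k) P x y → zlab x = .cell i j → zlab y = .cell i' j' →
    i = i' ∧ j = j') ∧
  (∀ x y o i j o' i' j', AAdj (2 * k) P x y → zlab x = .port o i j → zlab y = .port o' i' j' →
    o = o' ∧ i = i' ∧ j = j') ∧
  (∀ x y o i j i' j', AAdj (2 * k) P x y → zlab x = .port o i j → zlab y = .cell i' j' →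
    (i', j') = (i, j) ∨ (i', j') = nx o i j) ∧
  (∀ i j, i < k → j < k → Vx (2 * k) P (rt0 P i j) ∧
    (∃ a b c, a ≠ b ∧ a ≠ c ∧ b ≠ c ∧ AAdj (2 * k) P (rt0 P i j) a ∧
      AAdj (2 * k) P (rt0 P i j) b ∧ AAdj (2 * k) P (rt0 P i j) c) ∧
    ∀ a, AAdj (2 * k) P (rt0 P i j) a → zlab a = .cell i j ∧ a ≠ rt0 P i j)

/-- F3d: connected sets of labels give connected sets of vertices; vertices of a further class
which have neighbours in the set may be added. -/
def PF3d : Prop := ∀ {V : Type} (G : SimpleGraph V) (K : ℕ) (P : Par) (U : Set V) (ρ : V → Lab),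
  IPat K P G U ρ → ∀ (Bl : Set Lab) (E : Set V), (∀ x ∈ Bl, Vx K P x) → Bl.Nonempty →
  (∀ x ∈ Bl, ∀ y ∈ Bl, Relation.ReflTransGen (fun a b => AAdj K P a b ∧ a ∈ Bl ∧ b ∈ Bl) x y) →
  (∀ v ∈ E, ∃ u ∈ U, ρ u ∈ Bl ∧ G.Adj v u) →
    (G.induce ({u | u ∈ U ∧ ρ u ∈ Bl} ∪ E)).Connected

/-- F3: the layout (uses F3a, F3b, F3c, F3d). -/
def PF3 : Prop := ∀ {V : Type} [Finite V] (G : SimpleGraph V) (k : ℕ) (P : Par) (U : Set V)
  (ρ : V → Lab), Adm (2 * k) P → IPat (2 * k) P G U ρ → RL (2 * k) P G U ρ →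
    ∃ zn : V → Zn, (∀ v, zn v ≠ .pin → v ∈ U) ∧ Lay0 k G zn ∧ Lck k 5 G zn

/-- F4: models in restrictions (uses P0). -/
def PF4 : Prop := ∀ {V : Type} [Finite V] (G : SimpleGraph V) (S : Set V) (K : ℕ) (P : Par)
  (U : Set V) (ρ : V → Lab), Adm K P → IPat K P (rs G S) U ρ → RL K P (rs G S) U ρ →
    U ⊆ S ∧ IPat K P G U ρ ∧ RL K P G U ρ

/-- F: layouts in a thin part with a large grid minor (uses S, F1, F2, F3, F4, S1, S2, PGr,
PE23). -/
def PF : Prop := ∀ k d : ℕ, ∃ K : ℕ, ∀ {V : Type} [Finite V] (G : SimpleGraph V) (D : Set V),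
  (∀ v, dg (rs G D) v ≤ d) → ∀ B, Grid (rs G D) K B → ∃ zn : V → Zn,
    (∀ v, zn v ≠ .pin → v ∈ D) ∧ Lay0 k G zn ∧ Lck k 5 G zn

/-- F5: grid minors of induced subgraphs. -/
def PF5 : Prop := ∀ {V : Type} (G : SimpleGraph V) (D : Set V) (K : ℕ) (B : ℕ → ℕ → Set D),
  Grid (G.induce D) K B → ∃ B', Grid (rs G D) K B'

/-! ## Main theorem -/

/-- For every `w` the class `C` contains a graph `A` such that, for some `δ`, the `δ`-core of `A`
has maximum degree at most `5` and the graph induced by the thin part has tree width larger than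
`w`. -/
def Fat (C : Code → Prop) : Prop := ∀ w : ℕ, ∃ A : Code, C A ∧ ∃ δ : ℕ,
  (∀ v ∈ core δ (graph A), ((graph A).neighborSet v ∩ core δ (graph A)).ncard ≤ 5) ∧
  ¬ TreeWidthLE ((graph A).induce (thin δ (graph A))) w

/-- Main theorem. -/
def PMainR : Prop := ∀ C : Code → Prop, ComputablePred C → Fat C →
  FptReducible Clique cliqueParam (Emb C) embParam

end Pool.Agent.PReg
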