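import Pool.Agent.Work.MP_cfa43e_lc.Reg.Stmts

set_option autoImplicit false

namespace Pool.Agent.PReg

open Pool.Agent.PEmb

namespace ItS2

variable {V : Type}

/-- The union of the first `n + 1` sets. -/
def U (C : ℕ → Set V) (n : ℕ) : Set V := {v | ∃ y, y ≤ n ∧ v ∈ C y}

theorem chain (G : SimpleGraph V) (C : ℕ → Set V) (n : ℕ)
    (hC : ∀ y, y ≤ n → (G.induce (C y)).Connected)
    (hA : ∀ y, y + 1 ≤ n → ∃ a ∈ C y, ∃ b ∈ C (y + 1), G.Adj a b) :
    (G.induce (U C n)).Connected := by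
  induction n with
  | zero =>
    have h : U C 0 = C 0 := by
      ext v
      simp [U]
    rw [h]
    exact hC 0 le_rfl
  | succ n ih =>
    have h : U C (n + 1) = U C n ∪ C (n + 1) := by
      ext v
      simp only [U, Set.mem_ofPred_eq, Set.mem_union]
      constructor
      · rintro ⟨y, hy, hv⟩
        rcases Nat.lt_or_ge y (n + 1) with h | h
        · exact Or.inl ⟨y, by omega, hv⟩
        · have : y = n + 1 := by omega
          subst this
          exact Or.inr hv
      · rintro (⟨y, hy, hv⟩ | hv)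
        · exact ⟨y, by omega, hv⟩
        · exact ⟨n + 1, le_rfl, hv⟩
    rw [h]
    obtain ⟨a, ha, b, hb, hab⟩ := hA n le_rfl
    exact SimpleGraph.connected_induce_union
      (ih (fun y hy => hC y (by omega)) (fun y hy => hA y (by omega))).preconnected
      (hC (n + 1) le_rfl).preconnected ⟨n, le_rfl, ha⟩ hb hab

/-- Row `i` and column `j`. -/
def X (B : ℕ → ℕ → Set V) (k i j : ℕ) : Set V := U (fun y => B i y) k ∪ U (fun x => B x j) k

theorem X_conn (G : SimpleGraph V) (k : ℕ) (B : ℕ → ℕ → Set V) (h : Grid G (k + 1) B) (i j : ℕ)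
    (hi : i ≤ k) (hj : j ≤ k) : (G.induce (X B k i j)).Connected := by
  refine SimpleGraph.induce_union_connected
    (chain G _ k (fun y hy => h.conn i y (by omega) (by omega))
      (fun y hy => h.ver i y (by omega) (by omega))).preconnected
    (chain G _ k (fun x hx => h.conn x j (by omega) (by omega))
      (fun x hx => h.hor x j (by omega) (by omega))).preconnected ?_
  obtain ⟨v, hv⟩ := (h.conn i j (by omega) (by omega)).nonempty
  exact ⟨v, ⟨j, hj, hv⟩, ⟨i, hi, hv⟩⟩

theorem card_le (k : ℕ) (b : Set V) (C : ℕ → Set V)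
    (hd : ∀ i j, i ≤ k → j ≤ k → i ≠ j → Disjoint (C i) (C j))
    (h : ∀ i, i ≤ k → (b ∩ C i).Nonempty) : ((k + 1 : ℕ) : ℕ∞) ≤ b.encard := by
  classical
  have : Nonempty V := ⟨(h 0 (Nat.zero_le k)).choose⟩
  choose! f hf using h
  have hinj : Set.InjOn f {i | i ≤ k} := by
    intro i hi j hj hij
    by_contra hne
    exact Set.disjoint_left.1 (hd i j hi hj hne) (hf i hi).2 (hij ▸ (hf j hj).2)
  have h1 : (f '' {i | i ≤ k}).encard = ({i | i ≤ k} : Set ℕ).encard := hinj.encard_image
  have h2 : ({i | i ≤ k} : Set ℕ).encard = ((k + 1 : ℕ) : ℕ∞) := by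
    have : ({i | i ≤ k} : Set ℕ) = ((Finset.range (k + 1) : Finset ℕ) : Set ℕ) := by
      ext i
      simp only [Set.mem_ofPred_eq, Finset.coe_range, Set.mem_Iio]
      omega
    rw [this, Set.encard_coe_eq_coe_finsetCard, Finset.card_range]
  rw [← h2, ← h1]
  refine Set.encard_le_encard ?_
  rintro _ ⟨i, hi, rfl⟩
  exact (hf i hi).1

end ItS2

/-- S2: a graph with a `K × K` grid minor has tree width at least `K - 1`. -/
theorem S2 (hS2a : PS2a) (hS2b : PS2b) : PS2 := by
  intro V G w K B htw h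
  rcases K with _ | k
  · exact Nat.zero_le _
  obtain ⟨T, t, bag, ht, hc, he, hb⟩ := htw
  obtain ⟨x0, hx0⟩ := hS2a (ι := Fin (k + 1) × Fin (k + 1)) t ht
    (fun p => {x | (bag x ∩ ItS2.X B k p.1 p.2).Nonempty})
    (fun p => hS2b G t bag hc he _ (ItS2.X_conn G k B h p.1 p.2 (by omega) (by omega)))
    (by
      rintro ⟨i, j⟩ ⟨i', j'⟩
      obtain ⟨v, hv⟩ := (h.conn i j' (by omega) (by omega)).nonempty
      obtain ⟨x, hx⟩ := (hc v).nonempty
      refine ⟨x, ⟨v, hx, Or.inl ⟨j', by omega, hv⟩⟩, ⟨v, hx, Or.inr ⟨i, by omega, hv⟩⟩⟩)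
  have key : ((k + 1 : ℕ) : ℕ∞) ≤ (bag x0).encard := by
    by_cases hr : ∀ i, i ≤ k → (bag x0 ∩ ItS2.U (fun y => B i y) k).Nonempty
    · refine ItS2.card_le k (bag x0) (fun i => ItS2.U (fun y => B i y) k) ?_ hr
      intro i j hi hj hij
      rw [Set.disjoint_left]
      rintro v ⟨y, hy, hv⟩ ⟨y', hy', hv'⟩
      exact Set.disjoint_left.1 (h.disj i y j y' (by omega) (by omega) (by omega) (by omega)
        (by simp [hij])) hv hv'
    · push Not at hr
      obtain ⟨i, hi, hi'⟩ := hr
      refine ItS2.card_le k (bag x0) (fun j => ItS2.U (fun x => B x j) k) ?_ ?_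
      · intro j j' hj hj' hjj
        rw [Set.disjoint_left]
        rintro v ⟨x, hx, hv⟩ ⟨x', hx', hv'⟩
        exact Set.disjoint_left.1 (h.disj x j x' j' (by omega) (by omega) (by omega) (by omega)
          (by simp [hjj])) hv hv'
      · intro j hj
        obtain ⟨v, hv, hv'⟩ := hx0 (⟨i, by omega⟩, ⟨j, by omega⟩)
        rcases hv' with hv' | hv'
        · exfalso
          have : v ∈ bag x0 ∩ ItS2.U (fun y => B i y) k := ⟨hv, hv'⟩
          rw [hi'] at this
          exact this
        · exact ⟨v, hv, hv'⟩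
  have h3 := key.trans (hb x0)
  exact_mod_cast h3

end Pool.Agent.PReg
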