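import Pool.Agent.Work.MP_cfa43e_lc.Reg.Stmts

/-!
# Item S6
-/

set_option autoImplicit false

namespace Pool.Agent.PReg

open Pool.Agent.PEmb

namespace ItS6

variable {V : Type}

/-- the image of the pattern -/
def HH (k : ℕ) (P : Par) (G : SimpleGraph V) (φ : Lab → V)
    (h : ∀ x y, AE k P x y → G.Adj (φ x) (φ y)) : SimpleGraph V where
  Adj u v := ∃ x y, AAdj k P x y ∧ φ x = u ∧ φ y = v
  symm := ⟨fun _ _ hh => by
    obtain ⟨x, y, h1, h2, h3⟩ := hh
    exact ⟨y, x, h1.symm, h3, h2⟩⟩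
  loopless := ⟨fun u hh => by
    obtain ⟨x, y, h1, h2, h3⟩ := hh
    have h4 : G.Adj (φ x) (φ y) := by
      rcases h1 with h1 | h1
      · exact h x y h1
      · exact (h y x h1).symm
    rw [h2, h3] at h4
    exact h4.ne rfl⟩

/-- the branch set of a cell, as a set of labels -/
def CC (k : ℕ) (P : Par) (i j : ℕ) : Set Lab :=
  {x | (∃ s, s < P.z i j ∧ x = .core i j s) ∨
    ∃ o s, Ex k o i j ∧ 1 ≤ s ∧ s < P.l o i j ∧ x = .leg o i j s}

/-- the cell of a label -/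
def ix : Lab → ℕ × ℕ
  | .core i j _ => (i, j)
  | .leg _ i j _ => (i, j)

lemma ix_CC {k : ℕ} {P : Par} {i j : ℕ} {x : Lab} (hx : x ∈ CC k P i j) : ix x = (i, j) := by
  rcases hx with ⟨s, _, rfl⟩ | ⟨o, s, _, _, _, rfl⟩ <;> rfl

lemma Vx_CC {k : ℕ} {P : Par} {i j : ℕ} (hi : i < k) (hj : j < k) {x : Lab}
    (hx : x ∈ CC k P i j) : Vx k P x := by
  rcases hx with ⟨s, hs, rfl⟩ | ⟨o, s, h1, h2, h3, rfl⟩
  · exact ⟨hi, hj, hs⟩
  · exact ⟨h1, h2, h3⟩

lemma conn_image {k : ℕ} {P : Par} {G : SimpleGraph V} {φ : Lab → V}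
    (h : ∀ x y, AE k P x y → G.Adj (φ x) (φ y)) (T : Set Lab) (x0 : Lab) (hx0 : x0 ∈ T)
    (hr : ∀ x ∈ T, Relation.ReflTransGen (fun a b => AAdj k P a b ∧ a ∈ T ∧ b ∈ T) x0 x) :
    ((HH k P G φ h).induce (φ '' T)).Connected := by
  have key : ∀ x, Relation.ReflTransGen (fun a b => AAdj k P a b ∧ a ∈ T ∧ b ∈ T) x0 x →
      ∀ hx : x ∈ T, ((HH k P G φ h).induce (φ '' T)).Reachable ⟨φ x0, x0, hx0, rfl⟩
        ⟨φ x, x, hx, rfl⟩ := by
    intro x hx
    induction hx with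
    | refl => intro _; exact SimpleGraph.Reachable.refl _
    | tail hab hbc ih =>
      intro hc
      refine (ih hbc.2.1).trans ?_
      refine SimpleGraph.Adj.reachable ?_
      exact ⟨_, _, hbc.1, rfl, rfl⟩
  haveI : Nonempty (φ '' T) := ⟨⟨φ x0, x0, hx0, rfl⟩⟩
  refine SimpleGraph.Connected.mk ?_
  rintro ⟨_, x, hx, rfl⟩ ⟨_, y, hy, rfl⟩
  exact (key x (hr x hx) hx).symm.trans (key y (hr y hy) hy)

lemma reach_CC {k : ℕ} {P : Par} (hA : Adm k P) {i j : ℕ} (hi : i < k) (hj : j < k) :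
    ∀ x ∈ CC k P i j, Relation.ReflTransGen
      (fun a b => AAdj k P a b ∧ a ∈ CC k P i j ∧ b ∈ CC k P i j) (.core i j 0) x := by
  have hcore : ∀ s, s < P.z i j → Relation.ReflTransGen
      (fun a b => AAdj k P a b ∧ a ∈ CC k P i j ∧ b ∈ CC k P i j) (.core i j 0)
        (.core i j s) := by
    intro s
    induction s with
    | zero => intro _; exact Relation.ReflTransGen.refl
    | succ s ih =>
      intro hs
      refine (ih (by omega)).tail ⟨Or.inl (AE.cyc i j s hi hj hs), ?_, ?_⟩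
      · exact Or.inl ⟨s, by omega, rfl⟩
      · exact Or.inl ⟨s + 1, hs, rfl⟩
  rintro x (⟨s, hs, rfl⟩ | ⟨o, s, h1, h2, h3, rfl⟩)
  · exact hcore s hs
  · have hro : ro o < 4 := by cases o <;> simp [ro]
    have hr := hA.rlt i j (ro o) hi hj hro
    induction s with
    | zero => omega
    | succ s ih =>
      rcases Nat.eq_zero_or_pos s with rfl | hs0
      · refine (hcore _ hr).tail ⟨Or.inl (AE.out o i j h1), ?_, ?_⟩
        · exact Or.inl ⟨_, hr, rfl⟩
        · exact Or.inr ⟨o, 1, h1, le_refl _, h3, rfl⟩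
      · refine (ih hs0 (by omega)).tail ⟨Or.inl (AE.step o i j s h1 hs0 h3), ?_, ?_⟩
        · exact Or.inr ⟨o, s, h1, hs0, by omega, rfl⟩
        · exact Or.inr ⟨o, s + 1, h1, h2, h3, rfl⟩

end ItS6

open ItS6 in
theorem S6 (hP0 : PP0) : PS6 := by
  intro V G k P hA hin
  obtain ⟨φ, hinj, hadj⟩ := hin
  obtain ⟨p1, _, p3⟩ := hP0 k P hA
  refine ⟨HH k P G φ hadj, ?_, ?_, fun i j => φ '' CC k P i j, ?_⟩
  · rintro u v ⟨x, y, h1, rfl, rfl⟩
    rcases h1 with h1 | h1
    · exact hadj x y h1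
    · exact (hadj y x h1).symm
  · intro v
    by_cases h : ∃ x y, AAdj k P x y ∧ φ x = v
    · obtain ⟨x, y, hxy, rfl⟩ := h
      obtain ⟨a, b, c, habc⟩ := p3 x
      have hsub : (HH k P G φ hadj).neighborSet (φ x) ⊆ {φ a, φ b, φ c} := by
        rintro w ⟨x', y', h1, h2, rfl⟩
        have hx' : x' = x := hinj x' x (p1 _ _ h1).1 (p1 _ _ hxy).1 h2
        subst hx'
        rcases habc y' h1 with rfl | rfl | rfl
        · exact Or.inl rfl
        · exact Or.inr (Or.inl rfl)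
        · exact Or.inr (Or.inr rfl)
      refine (Set.encard_le_encard hsub).trans ?_
      refine (Set.encard_insert_le _ _).trans ?_
      have h2 := Set.encard_insert_le ({φ c} : Set V) (φ b)
      rw [Set.encard_singleton] at h2
      calc ({φ b, φ c} : Set V).encard + 1 ≤ (1 + 1) + 1 := by gcongr
        _ = 3 := by norm_num
    · have : (HH k P G φ hadj).neighborSet v = ∅ := by
        rw [Set.eq_empty_iff_forall_notMem]
        rintro w ⟨x, y, h1, h2, _⟩
        exact h ⟨x, y, h1, h2⟩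
      rw [this, Set.encard_empty]
      exact zero_le
  · refine ⟨?_, ?_, ?_, ?_⟩
    · intro i j hi hj
      have hz := hA.z4 i j hi hj
      exact conn_image hadj _ (.core i j 0) (Or.inl ⟨0, by omega, rfl⟩) (reach_CC hA hi hj)
    · intro i j i' j' hi hj hi' hj' hne
      rw [Set.disjoint_left]
      rintro _ ⟨x, hx, rfl⟩ ⟨y, hy, hxy⟩
      have := hinj y x (Vx_CC hi' hj' hy) (Vx_CC hi hj hx) hxy
      subst this
      exact hne ((ix_CC hx).symm.trans (ix_CC hy))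
    · intro i j hi hj
      have hE : Ex k true i j := ⟨hi, hj⟩
      have hl := hA.lbig true i j i j hE (by omega) hj
      have hz := hA.z4 i j (by omega) hj
      refine ⟨φ (.leg true i j (P.l true i j - 1)), ⟨_, ?_, rfl⟩,
        φ (.core (i + 1) j (P.r (i + 1) j 3)), ⟨_, ?_, rfl⟩, ?_⟩
      · exact Or.inr ⟨true, _, hE, by omega, by omega, rfl⟩
      · exact Or.inl ⟨_, hA.rlt _ _ 3 hi hj (by norm_num), rfl⟩
      · exact ⟨_, _, Or.inl (AE.inn true i j hE), rfl, rfl⟩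
    · intro i j hi hj
      have hE : Ex k false i j := ⟨hi, hj⟩
      have hl := hA.lbig false i j i j hE hi (by omega)
      have hz := hA.z4 i j hi (by omega)
      refine ⟨φ (.leg false i j (P.l false i j - 1)), ⟨_, ?_, rfl⟩,
        φ (.core i (j + 1) (P.r i (j + 1) 1)), ⟨_, ?_, rfl⟩, ?_⟩
      · exact Or.inr ⟨false, _, hE, by omega, by omega, rfl⟩
      · exact Or.inl ⟨_, hA.rlt _ _ 1 hi hj (by norm_num), rfl⟩
      · exact ⟨_, _, Or.inl (AE.inn false i j hE), rfl, rfl⟩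

end Pool.Agent.PReg
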