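import Pool.Agent.Work.MP_cfa43e_lc.Reg.Stmts

/-!
# A clique gives an embedding
-/

set_option autoImplicit false

namespace Pool.Agent.PReg

open Pool.Agent.PEmb

namespace ItA6

variable {V W : Type}

/-- The member of the clique with number `i`. -/
noncomputable def ww {k : ℕ} (w : Fin k → W) (i : ℕ) : Option W := by
  classical
  exact if h : i < k then some (w ⟨i, h⟩) else none

theorem ww_eq {k : ℕ} (w : Fin k → W) {i : ℕ} (h : i < k) : ww w i = some (w ⟨i, h⟩) := by
  simp [ww, h]

/-- The value of a zone. -/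
noncomputable def val {k : ℕ} (w : Fin k → W) : Zn → Option W × Option W
  | .pin => (none, none)
  | .cell i j => (ww w i, ww w j)
  | .port false i _ => (ww w i, ww w i)
  | .port true _ j => (ww w j, ww w j)

theorem okv {k : ℕ} {G : SimpleGraph V} {zn : V → Zn} {Γ : SimpleGraph W} (L : Lay0 k G zn)
    {w : Fin k → W} (hw : ∀ a b, a ≠ b → Γ.Adj (w a) (w b)) (v : V) :
    okz Γ (zb (zn v)) (val w (zn v)) := by
  cases hz : zn v with
  | pin => rfl
  | cell i j =>
    obtain ⟨hi, hj⟩ := L.rc v i j hz
    by_cases hij : i = j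
    · subst hij
      simp only [zb, if_true, okz, val]
      exact ⟨w ⟨i, hi⟩, by rw [ww_eq w hi]⟩
    · simp only [zb, if_neg hij, okz, val]
      exact ⟨w ⟨i, hi⟩, w ⟨j, hj⟩, by rw [ww_eq w hi, ww_eq w hj],
        hw _ _ (fun h => hij (by simpa using h))⟩
  | port o i j =>
    have h := L.rp v o i j hz
    cases o with
    | false =>
      have hi : i < k := h.1
      simp only [zb, okz, val]
      exact ⟨w ⟨i, hi⟩, by rw [ww_eq w hi]⟩
    | true =>
      have hj : j < k := h.2
      simp only [zb, okz, val]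
      exact ⟨w ⟨j, hj⟩, by rw [ww_eq w hj]⟩

/-- Ports and cells. -/
theorem cpv {k : ℕ} {G : SimpleGraph V} {zn : V → Zn} (L : Lay0 k G zn) (w : Fin k → W)
    {u v : V} (h : G.Adj u v) {o : Bool} {i j i' j' : ℕ} (hu : zn u = .port o i j)
    (hv : zn v = .cell i' j') :
    cmp (zb (zn u)) (zb (zn v)) (val w (zn u)) (val w (zn v)) := by
  have hc := L.cp u v o i j i' j' h hu hv
  rw [hu, hv]
  cases o with
  | false =>
    have hi : i' = i := by
      rcases hc with hc | hc
      · exact (Prod.mk.inj hc).1
      · exact (Prod.mk.inj hc).1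
    subst hi
    by_cases hij : i' = j' <;> simp [zb, cmp, val, hij]
  | true =>
    have hj : j' = j := by
      rcases hc with hc | hc
      · exact (Prod.mk.inj hc).2
      · exact (Prod.mk.inj hc).2
    subst hj
    by_cases hij : i' = j' <;> simp [zb, cmp, val, hij]

theorem cmv {k : ℕ} {G : SimpleGraph V} {zn : V → Zn} (L : Lay0 k G zn) (w : Fin k → W)
    {u v : V} (h : G.Adj u v) :
    cmp (zb (zn u)) (zb (zn v)) (val w (zn u)) (val w (zn v)) := by
  cases hu : zn u with
  | pin =>
    simp only [zb, cmp]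
  | cell i j =>
    cases hv : zn v with
    | pin => by_cases hij : i = j <;> simp [zb, cmp, hij]
    | cell i' j' =>
      obtain ⟨rfl, rfl⟩ := L.cc u v i j i' j' h hu hv
      by_cases hij : i = j <;> simp [zb, cmp, hij]
    | port o i' j' =>
      have := cmp_symm (cpv L w h.symm hv hu)
      rw [hu, hv] at this
      exact this
  | port o i j =>
    cases hv : zn v with
    | pin => cases o <;> simp [zb, cmp]
    | cell i' j' =>
      have := cpv L w h hu hv
      rw [hu, hv] at this
      exact this
    | port o' i' j' =>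
      obtain ⟨rfl, rfl, rfl⟩ := L.pp u v o i j o' i' j' h hu hv
      cases o <;> simp [zb, cmp]

end ItA6

theorem A6 : PA6 := by
  intro V W k G zn Γ L ⟨w, hw⟩
  refine ⟨fun v => (v, ItA6.val w (zn v)), fun a b h => (Prod.mk.inj h).1, fun x y h => ?_⟩
  exact ⟨h, ItA6.okv L hw x, ItA6.okv L hw y, ItA6.cmv L w h⟩

end Pool.Agent.PReg
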