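import Pool.Agent.Work.MP_cfa43e_lc.Reg.Stmts

/-!
# Item B6: the code of the host is a code of the host
-/

set_option autoImplicit false

namespace Pool.Agent.PReg

open Pool.Agent.PEmb

namespace ItB6

/-- the number of a value -/
def enc {L : ℕ} : Option (Fin L) → ℕ
  | none => 0
  | some u => u.1 + 1

/-- the value of a number -/
def dec (L : ℕ) (j : ℕ) : Option (Fin L) :=
  if h : 0 < j ∧ j - 1 < L then some ⟨j - 1, h.2⟩ else none

theorem enc_lt {L : ℕ} (s : Option (Fin L)) : enc s < L + 1 := by
  cases s with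
  | none => simp [enc]
  | some u => have := u.2; simp only [enc]; omega

theorem enc_dec {L j : ℕ} (h : j < L + 1) : enc (dec L j) = j := by
  unfold dec
  split_ifs with h1
  · simp only [enc]; omega
  · simp only [enc]; omega

theorem enc_inj {L : ℕ} {s t : Option (Fin L)} : enc s = enc t ↔ s = t := by
  cases s with
  | none => cases t with
    | none => simp
    | some v => simp [enc]
  | some u => cases t with
    | none => simp [enc]
    | some v => simp [enc, Fin.ext_iff]

theorem enc_eq_zero {L : ℕ} {s : Option (Fin L)} : enc s = 0 ↔ s = none := by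
  cases s <;> simp [enc]

theorem enc_pos {L : ℕ} {s : Option (Fin L)} : 0 < enc s ↔ ∃ u, s = some u := by
  cases s <;> simp [enc]

theorem adjB_iff (A : Code) (u v : Fin A.length) :
    adjB A u v = true ↔ (graph A).Adj u v := by
  simp [adjB, graph, Fin.ext_iff]

theorem okB2_iff (G : Code) (z : List Bool) (s t : Option (Fin G.length)) :
    okB2 G z (enc s) (enc t) = true ↔ okz (graph G) (zbOf z) (s, t) := by
  unfold okB2 zbOf
  cases h3 : z.getD 3 false
  · cases h0 : z.getD 0 false
    · cases h2 : z.getD 2 false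
      · simp only [Bool.false_eq_true, if_false, Bool.or_self, Bool.and_eq_true,
          decide_eq_true_eq, okz]
        constructor
        · rintro ⟨h1, h4, h5⟩
          obtain ⟨u, rfl⟩ := enc_pos.1 h1
          obtain ⟨v, rfl⟩ := enc_pos.1 h4
          exact ⟨u, v, rfl, (adjB_iff G u v).1 h5⟩
        · rintro ⟨u, v, h, h5⟩
          rw [Prod.mk.injEq] at h
          obtain ⟨rfl, rfl⟩ := h
          exact ⟨by simp [enc], by simp [enc], (adjB_iff G u v).2 h5⟩
      · simp only [Bool.false_eq_true, if_false, Bool.false_or, if_true, Bool.and_eq_true,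
          decide_eq_true_eq, okz]
        constructor
        · rintro ⟨h1, h4⟩
          obtain ⟨u, rfl⟩ := enc_pos.1 h1
          rw [enc_inj] at h4
          exact ⟨u, by rw [← h4]⟩
        · rintro ⟨u, h⟩
          rw [Prod.mk.injEq] at h
          obtain ⟨rfl, rfl⟩ := h
          exact ⟨by simp [enc], rfl⟩
    · simp only [Bool.false_eq_true, if_false, Bool.true_or, if_true, Bool.and_eq_true,
        decide_eq_true_eq, okz]
      constructor
      · rintro ⟨h1, h4⟩
        obtain ⟨u, rfl⟩ := enc_pos.1 h1
        rw [enc_inj] at h4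
        exact ⟨u, by rw [← h4]⟩
      · rintro ⟨u, h⟩
        rw [Prod.mk.injEq] at h
        obtain ⟨rfl, rfl⟩ := h
        exact ⟨by simp [enc], rfl⟩
  · simp only [if_true, Bool.and_eq_true, decide_eq_true_eq, okz, enc_eq_zero, Prod.mk.injEq]

theorem compB2_iff {L : ℕ} (z z' : List Bool) (s t s' t' : Option (Fin L)) :
    compB2 z z' (enc s) (enc t) (enc s') (enc t') = true ↔
      cmp (zbOf z) (zbOf z') (s, t) (s', t') := by
  unfold compB2 zbOf
  cases z.getD 3 false <;> cases z'.getD 3 false <;> cases z.getD 0 false <;>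
    cases z'.getD 0 false <;> cases z.getD 1 false <;> cases z'.getD 1 false <;>
    cases z.getD 2 false <;> cases z'.getD 2 false <;>
    simp [cmp, enc_inj]

/-- the number of a vertex of the host -/
def E (G : Code) {m : ℕ} (v : Fin m × (Option (Fin G.length) × Option (Fin G.length))) : ℕ :=
  (v.1.1 * (G.length + 1) + enc v.2.1) * (G.length + 1) + enc v.2.2

variable (G : Code) {m : ℕ}

theorem E_div (v : Fin m × (Option (Fin G.length) × Option (Fin G.length))) :
    E G v / (G.length + 1) = v.1.1 * (G.length + 1) + enc v.2.1 := by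
  unfold E
  rw [mul_comm, Nat.mul_add_div (Nat.succ_pos _), Nat.div_eq_of_lt (enc_lt _), add_zero]

theorem E_mod (v : Fin m × (Option (Fin G.length) × Option (Fin G.length))) :
    E G v % (G.length + 1) = enc v.2.2 := by
  unfold E
  rw [Nat.mul_add_mod_self_right]
  exact Nat.mod_eq_of_lt (enc_lt _)

theorem E_div_mod (v : Fin m × (Option (Fin G.length) × Option (Fin G.length))) :
    E G v / (G.length + 1) % (G.length + 1) = enc v.2.1 := by
  rw [E_div, Nat.mul_add_mod_self_right]
  exact Nat.mod_eq_of_lt (enc_lt _)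

theorem E_div_div (v : Fin m × (Option (Fin G.length) × Option (Fin G.length))) :
    E G v / ((G.length + 1) * (G.length + 1)) = v.1.1 := by
  rw [← Nat.div_div_eq_div_mul, E_div, mul_comm, Nat.mul_add_div (Nat.succ_pos _),
    Nat.div_eq_of_lt (enc_lt _), add_zero]

theorem E_lt (v : Fin m × (Option (Fin G.length) × Option (Fin G.length))) :
    E G v < m * ((G.length + 1) * (G.length + 1)) := by
  have h1 : E G v / ((G.length + 1) * (G.length + 1)) < m := by rw [E_div_div]; exact v.1.2
  rwa [Nat.div_lt_iff_lt_mul (by positivity)] at h1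

theorem E_inj {v w : Fin m × (Option (Fin G.length) × Option (Fin G.length))}
    (h : E G v = E G w) : v = w := by
  have h1 := E_div_div G v
  have h2 := E_div_mod G v
  have h3 := E_mod G v
  rw [h, E_div_div] at h1
  rw [h, E_div_mod] at h2
  rw [h, E_mod] at h3
  obtain ⟨x, s, t⟩ := v
  obtain ⟨x', s', t'⟩ := w
  simp only at h1 h2 h3
  rw [enc_inj] at h2 h3
  rw [← h2, ← h3, Fin.ext h1]

theorem E_surj {p : ℕ} (hp : p < m * ((G.length + 1) * (G.length + 1))) :
    ∃ v : Fin m × (Option (Fin G.length) × Option (Fin G.length)), E G v = p := by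
  have hx : p / ((G.length + 1) * (G.length + 1)) < m := by
    rwa [Nat.div_lt_iff_lt_mul (by positivity)]
  refine ⟨(⟨_, hx⟩, (dec _ (p / (G.length + 1) % (G.length + 1)),
    dec _ (p % (G.length + 1)))), ?_⟩
  unfold E
  simp only
  rw [enc_dec (Nat.mod_lt _ (Nat.succ_pos _)), enc_dec (Nat.mod_lt _ (Nat.succ_pos _)),
    ← Nat.div_div_eq_div_mul]
  rw [Nat.div_add_mod' (p / (G.length + 1)), Nat.div_add_mod']

variable (A : Code) (Z : List (List Bool))

theorem half (h : Z.length = A.length) : (A ++ Z).length / 2 = A.length := by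
  rw [List.length_append, h]; omega

theorem aCode_eq (h : Z.length = A.length) : aCode (A ++ Z) = A := by
  unfold aCode
  rw [half A Z h, List.take_left]

theorem getD_eq (h : Z.length = A.length) (x : ℕ) :
    (A ++ Z).getD ((A ++ Z).length / 2 + x) [] = Z.getD x [] := by
  rw [half A Z h, List.getD_append_right _ _ _ _ (by omega), Nat.add_sub_cancel_left]

theorem hadj_iff (h : Z.length = A.length)
    (v w : Fin A.length × (Option (Fin G.length) × Option (Fin G.length))) :
    hadjB2 (A ++ Z) G (E G v) (E G w) = true ↔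
      (host (graph A) (fun v => zbOf (Z.getD v.1 [])) (graph G)).Adj v w := by
  unfold hadjB2
  simp only [E_div_div, E_div_mod, E_mod, aCode_eq A Z h, getD_eq A Z h, Bool.and_eq_true]
  rw [okB2_iff, okB2_iff, compB2_iff, adjB_iff]
  constructor
  · rintro ⟨⟨⟨h1, h2⟩, h3⟩, h4⟩
    exact ⟨h1, h2, h3, h4⟩
  · rintro ⟨h1, h2, h3, h4⟩
    exact ⟨⟨⟨h1, h2⟩, h3⟩, h4⟩

theorem length_hCode2 (h : Z.length = A.length) :
    (hCode2 (A ++ Z) G).length = A.length * ((G.length + 1) * (G.length + 1)) := by
  simp only [hCode2, List.length_map, List.length_range]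
  rw [half A Z h]

theorem entry_hCode2 (h : Z.length = A.length) (p q : ℕ)
    (hp : p < A.length * ((G.length + 1) * (G.length + 1)))
    (hq : q < A.length * ((G.length + 1) * (G.length + 1))) :
    entry (hCode2 (A ++ Z) G) p q = hadjB2 (A ++ Z) G p q := by
  have h1 : (hCode2 (A ++ Z) G).getD p [] =
      (List.range ((A ++ Z).length / 2 * ((G.length + 1) * (G.length + 1)))).map
        fun q => hadjB2 (A ++ Z) G p q := by
    rw [List.getD_eq_getElem _ _ (by rw [length_hCode2 G A Z h]; exact hp)]
    simp [hCode2]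
  unfold entry
  rw [h1, List.getD_eq_getElem _ _ (by
    rw [List.length_map, List.length_range, half A Z h]; exact hq), List.getElem_map,
    List.getElem_range]

end ItB6

open ItB6 in
theorem B6 : PB6 := by
  intro A Z G h
  have hlen := length_hCode2 G A Z h
  set H := host (graph A) (fun v => zbOf (Z.getD v.1 [])) (graph G) with hH
  constructor
  · rintro ⟨f, hf, hadj⟩
    have hlt : ∀ a, (f a).1 < A.length * ((G.length + 1) * (G.length + 1)) := fun a =>
      lt_of_lt_of_eq (f a).2 hlen
    choose g hg using fun a => E_surj G (hlt a)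
    refine ⟨g, fun a b hab => hf (Fin.ext ?_), fun x y hxy => ?_⟩
    · rw [← hg a, ← hg b, hab]
    · obtain ⟨-, h2⟩ := hadj x y hxy
      rw [entry_hCode2 G A Z h _ _ (hlt _) (hlt _), entry_hCode2 G A Z h _ _ (hlt _) (hlt _),
        ← hg x, ← hg y, hadj_iff G A Z h, hadj_iff G A Z h] at h2
      rcases h2 with h2 | h2
      · exact h2
      · exact h2.symm
  · rintro ⟨g, hg, hadj⟩
    have hlt : ∀ a, E G (g a) < (hCode2 (A ++ Z) G).length := fun a => by
      rw [hlen]; exact E_lt G (g a)
    refine ⟨fun a => ⟨E G (g a), hlt a⟩, fun a b hab => hg (E_inj G ?_), fun x y hxy => ?_⟩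
    · exact congrArg Fin.val hab
    · have h1 := hadj x y hxy
      refine ⟨fun e => ?_, Or.inl ?_⟩
      · have h2 := E_inj G (congrArg Fin.val e)
        rw [h2] at h1
        exact H.loopless.irrefl _ h1
      · rw [entry_hCode2 G A Z h _ _ (E_lt G _) (E_lt G _), hadj_iff G A Z h]
        exact h1

end Pool.Agent.PReg
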