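import Pool.Agent.Work.MP_cfa43e_lc.Reg.Stmts

/-!
# Only small graphs matter
-/

set_option autoImplicit false

namespace Pool.Agent.PReg

open Pool.Agent.PEmb

namespace ItB7

variable {V W₁ W₂ : Type}

/-- relabelling of the values -/
def mp (h : W₁ → W₂) (p : V × (Option W₁ × Option W₁)) : V × (Option W₂ × Option W₂) :=
  (p.1, (p.2.1.map h, p.2.2.map h))

theorem mp_inj {h : W₁ → W₂} (hi : Function.Injective h) :
    Function.Injective (mp h : V × (Option W₁ × Option W₁) → V × (Option W₂ × Option W₂)) := by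
  rintro ⟨v, s, t⟩ ⟨v', s', t'⟩ heq
  simp only [mp, Prod.mk.injEq] at heq
  obtain ⟨h1, h2, h3⟩ := heq
  rw [h1, Option.map_injective hi h2, Option.map_injective hi h3]

theorem okz_iff {h : W₁ → W₂} (hi : Function.Injective h) (Γ₁ : SimpleGraph W₁)
    (Γ₂ : SimpleGraph W₂) (z : ZB) (p : Option W₁ × Option W₁) :
    ((∀ x y, Γ₁.Adj x y → Γ₂.Adj (h x) (h y)) → okz Γ₁ z p →
      okz Γ₂ z (p.1.map h, p.2.map h)) ∧
    ((∀ x y, Γ₂.Adj (h x) (h y) → Γ₁.Adj x y) → okz Γ₂ z (p.1.map h, p.2.map h) →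
      okz Γ₁ z p) := by
  obtain ⟨s, t⟩ := p
  constructor
  · intro hadj hok
    cases z with
    | pin =>
      simp only [okz, Prod.mk.injEq] at hok ⊢
      rw [hok.1, hok.2]
      exact ⟨rfl, rfl⟩
    | diag =>
      obtain ⟨u, hu⟩ := hok
      simp only [Prod.mk.injEq] at hu
      exact ⟨h u, by rw [hu.1, hu.2]; rfl⟩
    | off =>
      obtain ⟨u, v, hu, huv⟩ := hok
      simp only [Prod.mk.injEq] at hu
      exact ⟨h u, h v, by rw [hu.1, hu.2]; rfl, hadj _ _ huv⟩
    | port o =>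
      obtain ⟨u, hu⟩ := hok
      simp only [Prod.mk.injEq] at hu
      exact ⟨h u, by rw [hu.1, hu.2]; rfl⟩
  · intro hadj hok
    cases z with
    | pin =>
      simp only [okz, Prod.mk.injEq, Option.map_eq_none_iff] at hok ⊢
      exact hok
    | diag =>
      obtain ⟨u, hu⟩ := hok
      simp only [Prod.mk.injEq, Option.map_eq_some_iff] at hu
      obtain ⟨⟨a, ha, ha'⟩, ⟨b, hb, hb'⟩⟩ := hu
      have : a = b := hi (by rw [ha', hb'])
      exact ⟨a, by rw [ha, hb, this]⟩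
    | off =>
      obtain ⟨u, v, hu, huv⟩ := hok
      simp only [Prod.mk.injEq, Option.map_eq_some_iff] at hu
      obtain ⟨⟨a, ha, ha'⟩, ⟨b, hb, hb'⟩⟩ := hu
      exact ⟨a, b, by rw [ha, hb], hadj _ _ (by rw [ha', hb']; exact huv)⟩
    | port o =>
      obtain ⟨u, hu⟩ := hok
      simp only [Prod.mk.injEq, Option.map_eq_some_iff] at hu
      obtain ⟨⟨a, ha, ha'⟩, ⟨b, hb, hb'⟩⟩ := hu
      have : a = b := hi (by rw [ha', hb'])
      exact ⟨a, by rw [ha, hb, this]⟩

theorem cmp_iff {h : W₁ → W₂} (hi : Function.Injective h) (z z' : ZB)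
    (p q : Option W₁ × Option W₁) :
    cmp z z' p q ↔ cmp z z' (p.1.map h, p.2.map h) (q.1.map h, q.2.map h) := by
  have e : ∀ s t : Option W₁, s.map h = t.map h ↔ s = t := fun s t =>
    ⟨fun hh => Option.map_injective hi hh, fun hh => by rw [hh]⟩
  rcases z with _ | _ | _ | (_ | _) <;> rcases z' with _ | _ | _ | (_ | _) <;>
    simp only [cmp, e, Prod.ext_iff]

theorem host_up {h : W₁ → W₂} (hi : Function.Injective h) (G : SimpleGraph V) (ζ : V → ZB)
    (Γ₁ : SimpleGraph W₁) (Γ₂ : SimpleGraph W₂)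
    (hadj : ∀ x y, Γ₁.Adj x y → Γ₂.Adj (h x) (h y)) (p q : V × (Option W₁ × Option W₁))
    (hpq : (host G ζ Γ₁).Adj p q) : (host G ζ Γ₂).Adj (mp h p) (mp h q) :=
  ⟨hpq.1, (okz_iff hi Γ₁ Γ₂ _ _).1 hadj hpq.2.1, (okz_iff hi Γ₁ Γ₂ _ _).1 hadj hpq.2.2.1,
    (cmp_iff hi _ _ _ _).1 hpq.2.2.2⟩

theorem host_down {h : W₁ → W₂} (hi : Function.Injective h) (G : SimpleGraph V) (ζ : V → ZB)
    (Γ₁ : SimpleGraph W₁) (Γ₂ : SimpleGraph W₂)
    (hadj : ∀ x y, Γ₂.Adj (h x) (h y) → Γ₁.Adj x y) (p q : V × (Option W₁ × Option W₁))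
    (hpq : (host G ζ Γ₂).Adj (mp h p) (mp h q)) : (host G ζ Γ₁).Adj p q :=
  ⟨hpq.1, (okz_iff hi Γ₁ Γ₂ _ _).2 hadj hpq.2.1, (okz_iff hi Γ₁ Γ₂ _ _).2 hadj hpq.2.2.1,
    (cmp_iff hi _ _ _ _).2 hpq.2.2.2⟩

end ItB7

open ItB7 in
theorem B7 : PB7 := by
  intro V _ k G ζ htop hsmall W Γ
  constructor
  · rintro ⟨w, hw⟩
    have hi : Function.Injective w := by
      intro a b hab
      by_contra hne
      have := hw a b hne
      rw [hab] at this
      exact this.ne rfl
    obtain ⟨f, hf, hadj⟩ := htop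
    refine ⟨fun v => mp w (f v), fun a b hab => hf (mp_inj hi hab), fun x y hxy => ?_⟩
    exact host_up hi G ζ ⊤ Γ (fun a b hab => hw a b hab) _ _ (hadj x y hxy)
  · rintro ⟨f, hf, hadj⟩
    let T : Set W := {u | ∃ v, (f v).2.1 = some u ∨ (f v).2.2 = some u}
    let g : V ⊕ V → Option W := Sum.elim (fun v => (f v).2.1) (fun v => (f v).2.2)
    have hsub : some '' T ⊆ Set.range g := by
      rintro _ ⟨u, ⟨v, hv | hv⟩, rfl⟩
      · exact ⟨Sum.inl v, hv⟩
      · exact ⟨Sum.inr v, hv⟩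
    have hfin : (some '' T).Finite := (Set.finite_range g).subset hsub
    have hTfin : T.Finite := hfin.of_finite_image (Option.some_injective W).injOn
    have hcard : T.ncard ≤ 2 * Nat.card V := by
      have h1 : (some '' T).ncard = T.ncard :=
        Set.ncard_image_of_injective T (Option.some_injective W)
      have h2 : (some '' T).ncard ≤ (Set.range g).ncard :=
        Set.ncard_le_ncard hsub (Set.finite_range g)
      have h3 : (Set.range g).ncard ≤ Nat.card (V ⊕ V) := by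
        rw [← Set.image_univ, ← Set.ncard_univ]
        exact Set.ncard_image_le (Set.toFinite _)
      rw [Nat.card_sum] at h3
      omega
    have : Finite T := hTfin
    have hc : Nat.card T = T.ncard := Nat.card_coe_set_eq T
    let e : T ≃ Fin T.ncard := Finite.equivFinOfCardEq hc
    let e' : Fin T.ncard → W := fun i => (e.symm i).1
    have hi : Function.Injective e' := fun i j hij => e.symm.injective (Subtype.ext hij)
    have hlift : ∀ x : Option W, (∀ u, x = some u → u ∈ T) → ∃ s : Option (Fin T.ncard),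
        s.map e' = x := by
      intro x hx
      rcases x with _ | u
      · exact ⟨none, rfl⟩
      · refine ⟨some (e ⟨u, hx u rfl⟩), ?_⟩
        simp [e']
    have hf1 : ∀ v, ∃ p : V × (Option (Fin T.ncard) × Option (Fin T.ncard)), mp e' p = f v := by
      intro v
      obtain ⟨s, hs⟩ := hlift (f v).2.1 (fun u hu => ⟨v, Or.inl hu⟩)
      obtain ⟨t, ht⟩ := hlift (f v).2.2 (fun u hu => ⟨v, Or.inr hu⟩)
      exact ⟨((f v).1, (s, t)), by simp only [mp, hs, ht]⟩
    choose f1 hf1 using hf1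
    obtain ⟨w, hw⟩ := hsmall T.ncard hcard (Γ.comap e') ⟨f1, fun a b hab => hf (by
      rw [← hf1 a, ← hf1 b, hab]), fun x y hxy => host_down hi G ζ _ Γ (fun a b hab => hab) _ _ (by
        rw [hf1 x, hf1 y]; exact hadj x y hxy)⟩
    exact ⟨fun a => e' (w a), fun a b hab => hw a b hab⟩

end Pool.Agent.PReg
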