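import Pool.Agent.Work.MP_cfa43e_lc.Reg.StmtsB

/-!
# L6: the star lemma
-/

set_option autoImplicit false

namespace Pool.Agent.PReg

open Pool.Agent.PEmb

namespace ItL6

variable {V : Type}

/-- steps inside a set -/
def St (G : SimpleGraph V) (S : Set V) (a b : V) : Prop := G.Adj a b ∧ a ∈ S ∧ b ∈ S

lemma st_mono {G : SimpleGraph V} {S T : Set V} (h : S ⊆ T) {a b : V}
    (h1 : Relation.ReflTransGen (St G S) a b) : Relation.ReflTransGen (St G T) a b :=
  Relation.ReflTransGen.mono (fun _ _ h2 => ⟨h2.1, h h2.2.1, h h2.2.2⟩) _ _ h1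

lemma st_symm {G : SimpleGraph V} {S : Set V} {a b : V}
    (h1 : Relation.ReflTransGen (St G S) a b) : Relation.ReflTransGen (St G S) b a := by
  have hsym : Std.Symm (St G S) := ⟨by
    rintro a b ⟨h1, h2, h3⟩
    exact ⟨h1.symm, h3, h2⟩⟩
  have h2 : Std.Symm (Relation.ReflTransGen (St G S)) := Relation.ReflTransGen.symmetric
  exact h2.symm _ _ h1

lemma of_conn {G : SimpleGraph V} {S : Set V} (h : (G.induce S).Connected) {a b : V}
    (ha : a ∈ S) (hb : b ∈ S) : Relation.ReflTransGen (St G S) a b := by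
  have h1 := h.preconnected ⟨a, ha⟩ ⟨b, hb⟩
  rw [SimpleGraph.reachable_iff_reflTransGen] at h1
  exact Relation.ReflTransGen.lift (r := (G.induce S).Adj) (p := St G S) (fun x : S => (x : V))
    (fun x y hxy => ⟨hxy, x.2, y.2⟩) _ _ h1

lemma to_conn {G : SimpleGraph V} {S : Set V} {c : V} (hc : c ∈ S)
    (h : ∀ v ∈ S, Relation.ReflTransGen (St G S) c v) : (G.induce S).Connected := by
  rw [SimpleGraph.connected_iff_exists_forall_reachable]
  refine ⟨⟨c, hc⟩, ?_⟩
  rintro ⟨v, hv⟩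
  have key : ∀ w, Relation.ReflTransGen (St G S) c w → ∀ hw : w ∈ S,
      (G.induce S).Reachable ⟨c, hc⟩ ⟨w, hw⟩ := by
    intro w hw
    induction hw with
    | refl => intro _; exact SimpleGraph.Reachable.refl _
    | tail h1 h2 ih =>
      intro hw
      refine (ih h2.2.1).trans (SimpleGraph.Adj.reachable ?_)
      exact h2.1
  exact key v (h v hv) hv

end ItL6

open ItL6

theorem L6 : PL6 := by
  intro V _ G B R z z' m hB hR hRB hzz hz hz' hCm hm hm1
  obtain ⟨⟨r0, hr0⟩⟩ := hR.nonempty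
  set Cm : Set V := G.neighborSet z ∩ G.neighborSet z' with hCm0
  set Y0 : Set V := {z, z'} ∪ Cm with hY0
  have hY0R : ∀ y ∈ Y0, y ∈ B ∧ y ∉ R := by
    rintro y ((rfl | rfl) | hy)
    · exact hz
    · exact hz'
    · exact hCm hy
  set C0 : Set V := {v | Relation.ReflTransGen (St G (B \ Y0)) r0 v} with hC0
  have hRsub : R ⊆ B \ Y0 := fun r hr => ⟨hRB hr, fun h => (hY0R r h).2 hr⟩
  have hRC0 : R ⊆ C0 := fun r hr => st_mono hRsub (of_conn hR hr0 hr)
  have hC0B : C0 ⊆ B \ Y0 := by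
    intro v hv
    rw [hC0, Set.mem_setOf_eq] at hv
    rcases Relation.ReflTransGen.cases_tail hv with h | ⟨c, _, h⟩
    · rw [h]; exact hRsub hr0
    · exact h.2.2
  have hC0conn : ∀ v ∈ C0, Relation.ReflTransGen (St G C0) r0 v := by
    intro v hv
    rw [hC0, Set.mem_setOf_eq] at hv
    induction hv with
    | refl => exact Relation.ReflTransGen.refl
    | tail h1 h2 ih => exact ih.tail ⟨h2.1, h1, h1.tail h2⟩
  -- a vertex of Y0 next to C0
  have hex : ∃ y ∈ Y0, ∃ c ∈ C0, G.Adj c y := by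
    by_contra hcon
    push Not at hcon
    have h1 := of_conn hB (hRB hr0) hz.1
    have h2 : ∀ w, Relation.ReflTransGen (St G B) r0 w → w ∈ C0 := by
      intro w hw
      induction hw with
      | refl => exact Relation.ReflTransGen.refl
      | @tail b c h1 h2 ih =>
        have hc : c ∉ Y0 := fun h => hcon c h b ih h2.1
        exact Relation.ReflTransGen.tail ih ⟨h2.1, hC0B ih, h2.2.2, hc⟩
    exact (hC0B (h2 z h1)).2 (Or.inl (Or.inl rfl))
  have main : ∀ w w', (w = z ∨ w = z') → (w' = z ∨ w' = z') → w ≠ w' →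
      (∀ v ∈ Cm, G.Adj w v ∧ G.Adj w' v) → (∃ y ∈ ({w} ∪ Cm : Set V), ∃ c ∈ C0, G.Adj c y) →
      ∃ C : Set V, R ⊆ C ∧ C ⊆ B ∧ (G.induce C).Connected ∧
      ∃ z0, (z0 = z ∨ z0 = z') ∧ z0 ∉ C ∧ m ≤ {v | G.Adj z0 v ∧ v ∈ C}.ncard := by
    intro w w' hw hw' hne hadj ⟨y, hy, c, hc, hcy⟩
    have hwY0 : w ∈ Y0 := by
      rcases hw with rfl | rfl
      · exact Or.inl (Or.inl rfl)
      · exact Or.inl (Or.inr rfl)
    have hwY0' : w' ∈ Y0 := by
      rcases hw' with rfl | rfl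
      · exact Or.inl (Or.inl rfl)
      · exact Or.inl (Or.inr rfl)
    set C : Set V := C0 ∪ ({w} ∪ Cm) with hC
    have hCC0 : C0 ⊆ C := Set.subset_union_left
    have hyC : y ∈ C := Or.inr hy
    have hwC : w ∈ C := Or.inr (Or.inl rfl)
    have hcw : ∀ v ∈ ({w} ∪ Cm : Set V), Relation.ReflTransGen (St G C) w v := by
      rintro v (rfl | hv)
      · exact Relation.ReflTransGen.refl
      · exact Relation.ReflTransGen.single ⟨(hadj v hv).1, hwC, Or.inr (Or.inr hv)⟩
    have hr0w : Relation.ReflTransGen (St G C) r0 w :=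
      (((st_mono hCC0 (hC0conn c hc)).tail ⟨hcy, hCC0 hc, hyC⟩).trans (st_symm (hcw y hy)))
    refine ⟨C, hRC0.trans hCC0, ?_, to_conn (hCC0 (hRC0 hr0)) ?_, w', hw', ?_, ?_⟩
    · rintro v (hv | rfl | hv)
      · exact (hC0B hv).1
      · exact (hY0R _ hwY0).1
      · exact (hCm hv).1
    · rintro v (hv | hv)
      · exact st_mono hCC0 (hC0conn v hv)
      · exact hr0w.trans (hcw v hv)
    · rintro (h | h | h)
      · exact (hC0B h).2 hwY0'
      · exact hne h.symm
      · exact G.loopless.irrefl _ (hadj _ h).2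
    · refine hm.trans (Set.ncard_le_ncard ?_ (Set.toFinite _))
      intro v hv
      exact ⟨(hadj v hv).2, Or.inr (Or.inr hv)⟩
  obtain ⟨y, hy, c, hc, hcy⟩ := hex
  rcases hy with (rfl | rfl) | hy
  · exact main y z' (Or.inl rfl) (Or.inr rfl) hzz (fun v hv => ⟨hv.1, hv.2⟩)
      ⟨y, Or.inl rfl, c, hc, hcy⟩
  · exact main y z (Or.inr rfl) (Or.inl rfl) hzz.symm (fun v hv => ⟨hv.2, hv.1⟩)
      ⟨y, Or.inl rfl, c, hc, hcy⟩
  · exact main z' z (Or.inr rfl) (Or.inl rfl) hzz.symm (fun v hv => ⟨hv.2, hv.1⟩)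
      ⟨y, Or.inr hy, c, hc, hcy⟩

end Pool.Agent.PReg
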