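import Mathlib
import Pool.Agent.Work.MP_cfa43e_lc.Reg.StmtsB

set_option autoImplicit false

namespace Pool.Agent.PReg

open Pool.Agent.PEmb

namespace ItV2

variable {V : Type}

/-- one step inside `S` -/
def St (G : SimpleGraph V) (S : Set V) (a b : V) : Prop := a ∈ S ∧ b ∈ S ∧ G.Adj a b

theorem St_symm {G : SimpleGraph V} {S : Set V} {a b : V}
    (h : Relation.ReflTransGen (St G S) a b) : Relation.ReflTransGen (St G S) b a := by
  induction h with
  | refl => exact .refl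
  | tail _ hbc ih => exact .head ⟨hbc.2.1, hbc.1, hbc.2.2.symm⟩ ih

theorem conn_of_rtg {G : SimpleGraph V} {S : Set V} (hne : S.Nonempty)
    (h : ∀ u ∈ S, ∀ v ∈ S, Relation.ReflTransGen (St G S) u v) : (G.induce S).Connected := by
  have key : ∀ a b, Relation.ReflTransGen (St G S) a b → ∀ (ha : a ∈ S),
      ∃ hb : b ∈ S, (G.induce S).Reachable ⟨a, ha⟩ ⟨b, hb⟩ := by
    intro a b hab ha
    induction hab with
    | refl => exact ⟨ha, .refl _⟩
    | tail _ hbc ih =>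
      obtain ⟨hb, hr⟩ := ih
      refine ⟨hbc.2.1, hr.trans (SimpleGraph.Adj.reachable ?_)⟩
      exact hbc.2.2
  have hN : Nonempty S := hne.to_subtype
  refine ⟨fun u v => ?_⟩
  obtain ⟨hb, hr⟩ := key u.1 v.1 (h u.1 u.2 v.1 v.2) u.2
  exact hr

/-- the ball meets `Z` -/
def Me (G : SimpleGraph V) (Z : Set V) (r : ℕ) (u : V) : Prop := ∃ z ∈ Z, z ∈ ball G r u

/-- the distance to `Z` is `r` -/
def Lv (G : SimpleGraph V) (Z : Set V) (r : ℕ) (u : V) : Prop :=
  Me G Z r u ∧ ∀ s < r, ¬ Me G Z s u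

theorem Lv_uniq {G : SimpleGraph V} {Z : Set V} {r s : ℕ} {u : V} (hr : Lv G Z r u)
    (hs : Lv G Z s u) : r = s := by
  rcases lt_trichotomy r s with h | h | h
  · exact absurd hr.1 (hs.2 r h)
  · exact h
  · exact absurd hs.1 (hr.2 s h)

theorem Lv_exists {G : SimpleGraph V} {Z : Set V} {n : ℕ} {u : V} (h : Me G Z n u) :
    ∃ r ≤ n, Lv G Z r u := by
  classical
  have hex : ∃ r, Me G Z r u := ⟨n, h⟩
  exact ⟨Nat.find hex, Nat.find_min' hex h, Nat.find_spec hex, fun s hs => Nat.find_min hex hs⟩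

theorem parent (hV0 : PV0) {G : SimpleGraph V} {Z : Set V} {r : ℕ} {u : V}
    (h : Lv G Z (r + 1) u) : ∃ u', G.Adj u u' ∧ Lv G Z r u' := by
  obtain ⟨hs, ht, hm⟩ := hV0 G
  obtain ⟨⟨z, hz, hzu⟩, hmin⟩ := h
  have h1 : u ∈ ball G (r + 1) z := hs _ _ _ hzu
  rcases h1 with h1 | ⟨u', hu', hadj⟩
  · exact absurd ⟨z, hz, hs _ _ _ h1⟩ (hmin r (Nat.lt_succ_self r))
  · refine ⟨u', hadj.symm, ⟨z, hz, hs _ _ _ hu'⟩, ?_⟩
    rintro s hsr ⟨z', hz', hzu'⟩
    refine hmin (s + 1) (by omega) ⟨z', hz', hs _ _ _ ?_⟩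
    exact Or.inr ⟨u', hs _ _ _ hzu', hadj⟩

open Classical in
/-- the root -/
noncomputable def R (G : SimpleGraph V) (Z : Set V) : ℕ → V → V
  | 0, u => u
  | n + 1, u => if h : ∃ u', G.Adj u u' ∧ Lv G Z n u' ∧ Lv G Z (n + 1) u then
      R G Z n h.choose else R G Z n u

theorem R_stable (G : SimpleGraph V) (Z : Set V) {n r : ℕ} (hr : r ≤ n) {u : V}
    (h : Lv G Z r u) : R G Z (n + 1) u = R G Z n u := by
  rw [R, dif_neg]
  rintro ⟨u', -, -, h'⟩
  have := Lv_uniq h h'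
  omega

theorem R_prop (hV0 : PV0) (G : SimpleGraph V) (Z : Set V) : ∀ n r, r ≤ n → ∀ u, Lv G Z r u →
    R G Z n u ∈ Z ∧ R G Z n u ∈ ball G r u ∧ (r = 0 → R G Z n u = u) ∧
      ∀ r', r = r' + 1 → ∃ u', G.Adj u u' ∧ Lv G Z r' u' ∧ R G Z n u' = R G Z n u := by
  obtain ⟨hs, ht, hm⟩ := hV0 G
  intro n
  induction n with
  | zero =>
    intro r hr u hu
    have hr0 : r = 0 := by omega
    subst hr0
    obtain ⟨⟨z, hz, hzu⟩, -⟩ := hu
    have hzu' : z = u := hzu
    subst hzu'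
    exact ⟨hz, rfl, fun _ => rfl, fun r' h => by omega⟩
  | succ n ih =>
    intro r hr u hu
    by_cases hrn : r ≤ n
    · obtain ⟨h1, h2, h3, h4⟩ := ih r hrn u hu
      rw [R_stable G Z hrn hu]
      refine ⟨h1, h2, h3, fun r' hr' => ?_⟩
      obtain ⟨u', ha, hb, hc⟩ := h4 r' hr'
      refine ⟨u', ha, hb, ?_⟩
      rw [R_stable G Z (by omega : r' ≤ n) hb, hc]
    · have hr' : r = n + 1 := by omega
      subst hr'
      obtain ⟨u0, hu0, hu0'⟩ := parent hV0 hu
      have hex : ∃ u', G.Adj u u' ∧ Lv G Z n u' ∧ Lv G Z (n + 1) u := ⟨u0, hu0, hu0', hu⟩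
      have hR : R G Z (n + 1) u = R G Z n hex.choose := by
        rw [R, dif_pos hex]
      obtain ⟨ha, hb, -⟩ := hex.choose_spec
      obtain ⟨h1, h2, -, -⟩ := ih n le_rfl _ hb
      refine ⟨?_, ?_, fun h => by omega, fun r' hr' => ?_⟩
      · rw [hR]
        exact h1
      · rw [hR]
        have h5 : hex.choose ∈ ball G 1 u := Or.inr ⟨u, rfl, ha⟩
        have h6 := ht 1 n _ _ _ h5 h2
        rwa [add_comm] at h6
      · have hr'' : r' = n := by omega
        subst hr''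
        refine ⟨hex.choose, ha, hb, ?_⟩
        rw [R_stable G Z le_rfl hb, hR]

end ItV2

open ItV2 in
theorem V2 (hV0 : PV0) (hS3a : PS3a) : PV2 := by
  intro V _ G d Z hd hdisj
  obtain ⟨hs, ht, hm⟩ := hV0 G
  classical
  let π : V → V := fun u => if Me G Z 6 u then R G Z 6 u else u
  have hMem : ∀ z ∈ Z, Me G Z 6 z := fun z hz => ⟨z, hz, hm 0 6 z (by omega) rfl⟩
  have hπ1 : ∀ u, Me G Z 6 u → π u = R G Z 6 u := fun u h => if_pos h
  have hπ2 : ∀ u, ¬ Me G Z 6 u → π u = u := fun u h => if_neg h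
  have hprop := R_prop hV0 G Z 6
  have hMZ : ∀ u, Me G Z 6 u → π u ∈ Z := by
    intro u hu
    obtain ⟨r, hr, hL⟩ := Lv_exists hu
    rw [hπ1 u hu]
    exact (hprop r hr u hL).1
  -- fibres of elements outside
  have hout : ∀ x, ¬ Me G Z 6 x → π ⁻¹' {x} = {x} := by
    intro x hx
    ext u
    constructor
    · intro hu
      have hu' : π u = x := hu
      by_cases hMu : Me G Z 6 u
      · exact absurd (hMem x (hu' ▸ hMZ u hMu)) hx
      · rw [hπ2 u hMu] at hu'
        exact hu'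
    · intro hu
      have hu' : u = x := hu
      subst hu'
      exact hπ2 u hx
  have hroot : ∀ z r u, r ≤ 6 → Lv G Z r u → R G Z 6 u = z →
      Relation.ReflTransGen (St G (π ⁻¹' {z})) u z := by
    intro z r
    induction r with
    | zero =>
      intro u _ hu hz
      have h1 := (hprop 0 (by omega) u hu).2.2.1 rfl
      rw [← hz, h1]
    | succ r ih =>
      intro u hr hu hz
      obtain ⟨u', ha, hb, hc⟩ := (hprop (r + 1) hr u hu).2.2.2 r rfl
      have hMu : Me G Z 6 u := by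
        obtain ⟨y, hy, hyu⟩ := hu.1
        exact ⟨y, hy, hm _ _ _ hr hyu⟩
      have hMu' : Me G Z 6 u' := by
        obtain ⟨y, hy, hyu⟩ := hb.1
        exact ⟨y, hy, hm _ _ _ (by omega) hyu⟩
      refine .head ⟨?_, ?_, ha⟩ (ih u' (by omega) hb (by rw [hc, hz]))
      · show π u = z
        rw [hπ1 u hMu, hz]
      · show π u' = z
        rw [hπ1 u' hMu', hc, hz]
  refine ⟨π, ?_, ?_, ?_, ?_⟩
  · intro x
    by_cases hx : Me G Z 6 x
    · have hz := hMZ x hx
      set z := π x with hzdef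
      have hto : ∀ u ∈ π ⁻¹' {z}, Relation.ReflTransGen (St G (π ⁻¹' {z})) u z := by
        intro u hu
        have hu' : π u = z := hu
        by_cases hMu : Me G Z 6 u
        · obtain ⟨r, hr, hL⟩ := Lv_exists hMu
          exact hroot z r u hr hL (by rw [← hπ1 u hMu, hu'])
        · rw [hπ2 u hMu] at hu'
          rw [hu']
      refine conn_of_rtg ⟨x, hzdef.symm⟩ fun u hu v hv => ?_
      exact (hto u hu).trans (St_symm (hto v hv))
    · rw [hπ2 x hx, hout x hx]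
      refine conn_of_rtg ⟨x, rfl⟩ fun u hu v hv => ?_
      have hu' : u = x := hu
      have hv' : v = x := hv
      rw [hu', hv']
  · intro a
    have hsub : π ⁻¹' {a} ⊆ ball G 6 a := by
      intro u hu
      have hu' : π u = a := hu
      by_cases hMu : Me G Z 6 u
      · obtain ⟨r, hr, hL⟩ := Lv_exists hMu
        have h1 := (hprop r hr u hL).2.1
        rw [← hπ1 u hMu, hu'] at h1
        exact hs _ _ _ (hm _ _ _ hr h1)
      · rw [hπ2 u hMu] at hu'
        rw [hu']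
        exact hm 0 6 a (by omega) rfl
    exact (Set.ncard_le_ncard hsub (Set.toFinite _)).trans (hS3a G d hd 6 a)
  · intro z hz u hu
    have hu1 : z ∈ ball G 2 u := hs _ _ _ hu
    have hMu : Me G Z 6 u := ⟨z, hz, hm 2 6 u (by omega) hu1⟩
    obtain ⟨r, hr, hL⟩ := Lv_exists (n := 2) (⟨z, hz, hu1⟩ : Me G Z 2 u)
    have h1 := hprop r (by omega) u hL
    show π u = z
    rw [hπ1 u hMu]
    by_contra hne
    have h2 := hdisj _ h1.1 z hz hne
    have h3 : u ∈ ball G 2 (R G Z 6 u) := hs _ _ _ (hm _ _ _ hr h1.2.1)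
    exact Set.disjoint_left.mp h2 h3 hu
  · intro x hx
    have hMx : ¬ Me G Z 6 x := fun h => hx (hMZ x h)
    refine ⟨hπ2 x hMx, hout x hMx, ?_⟩
    rw [Set.disjoint_left]
    intro y hy hyZ
    exact hMx ⟨y, hyZ, hy⟩

end Pool.Agent.PReg
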