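import Mathlib
import Pool.Agent.Work.MP_cfa43e_lc.Reg.StmtsB

set_option autoImplicit false

namespace Pool.Agent.PReg

open Pool.Agent.PEmb

namespace ItV4

variable {V : Type}

/-- one step inside `S` -/
def St (G : SimpleGraph V) (S : Set V) (a b : V) : Prop := a ∈ S ∧ b ∈ S ∧ G.Adj a b

theorem rtg_of_conn {G : SimpleGraph V} {S : Set V} (h : (G.induce S).Connected) {u v : V}
    (hu : u ∈ S) (hv : v ∈ S) : Relation.ReflTransGen (St G S) u v := by
  have key : ∀ (a b : S), (G.induce S).Walk a b → Relation.ReflTransGen (St G S) a.1 b.1 := by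
    intro a b p
    induction p with
    | nil => exact .refl
    | cons hadj _ ih => exact .head ⟨Subtype.property _, Subtype.property _, hadj⟩ ih
  obtain ⟨p⟩ := h.preconnected ⟨u, hu⟩ ⟨v, hv⟩
  exact key _ _ p

theorem conn_of_rtg {G : SimpleGraph V} {S : Set V} (hne : S.Nonempty)
    (h : ∀ u ∈ S, ∀ v ∈ S, Relation.ReflTransGen (St G S) u v) : (G.induce S).Connected := by
  have key : ∀ a b, Relation.ReflTransGen (St G S) a b → ∀ (ha : a ∈ S),
      ∃ hb : b ∈ S, (G.induce S).Reachable ⟨a, ha⟩ ⟨b, hb⟩ := by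
    intro a b hab ha
    induction hab with
    | refl => exact ⟨ha, .refl _⟩
    | tail _ hbc ih =>
      obtain ⟨hb, hr⟩ := ih
      refine ⟨hbc.2.1, hr.trans (SimpleGraph.Adj.reachable ?_)⟩
      exact hbc.2.2
  have hN : Nonempty S := hne.to_subtype
  refine ⟨fun u v => ?_⟩
  obtain ⟨hb, hr⟩ := key u.1 v.1 (h u.1 u.2 v.1 v.2) u.2
  exact hr

theorem mono {G : SimpleGraph V} {S T : Set V} (hST : S ⊆ T) {u v : V}
    (h : Relation.ReflTransGen (St G S) u v) : Relation.ReflTransGen (St G T) u v := by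
  induction h with
  | refl => exact .refl
  | tail _ hbc ih => exact ih.tail ⟨hST hbc.1, hST hbc.2.1, hbc.2.2⟩

end ItV4

open ItV4 in
theorem V4 : PV4 := by
  intro V _ G π K P U ρ hfib hU h
  refine ⟨fun u hu => h.vx _ hu, ?_, ?_, ?_⟩
  · intro x hx
    have hc := h.conn x hx
    set S' : Set V := {u | u ∈ U ∧ ρ u = x} with hS'
    set S : Set V := {u | u ∈ π ⁻¹' U ∧ ρ (π u) = x} with hS
    have hmem : ∀ u, u ∈ S ↔ π u ∈ S' := fun u => Iff.rfl
    have hfibS : ∀ u v, π u ∈ S' → π v = π u → Relation.ReflTransGen (St G S) u v := by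
      intro u v hu huv
      refine mono ?_ (rtg_of_conn (hfib u) (u := u) (v := v) rfl huv)
      intro w hw
      rw [hmem]
      rw [show π w = π u from hw]
      exact hu
    refine conn_of_rtg ?_ ?_
    · obtain ⟨⟨a, ha⟩⟩ := hc.nonempty
      obtain ⟨y, rfl⟩ := hU a ha.1
      exact ⟨y, ha⟩
    · intro u hu v hv
      have h1 := rtg_of_conn hc ((hmem u).1 hu) ((hmem v).1 hv)
      have key : ∀ a, Relation.ReflTransGen (St (quo G π) S') (π u) a → ∀ w, π w = a →
          Relation.ReflTransGen (St G S) u w := by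
        intro a ha
        induction ha with
        | refl => exact fun w hw => hfibS u w ((hmem u).1 hu) hw
        | @tail b c _ hbc ih =>
          intro w hw
          obtain ⟨hb, hc', hne, x', y', hx', hy', hadj⟩ := hbc
          have h2 := ih x' hx'
          refine (h2.tail ⟨?_, ?_, hadj⟩).trans (hfibS y' w ?_ ?_)
          · rw [hmem, hx']
            exact hb
          · rw [hmem, hy']
            exact hc'
          · rw [hy']
            exact hc'
          · rw [hw, hy']
      exact key _ h1 v rfl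
  · intro x y hxy
    obtain ⟨u, hu, v, hv, hux, hvy, hne, x', y', hx', hy', hadj⟩ := h.adj x y hxy
    refine ⟨x', ?_, y', ?_, ?_, ?_, hadj⟩
    · show π x' ∈ U
      rw [hx']
      exact hu
    · show π y' ∈ U
      rw [hy']
      exact hv
    · show ρ (π x') = x
      rw [hx', hux]
    · show ρ (π y') = y
      rw [hy', hvy]
  · intro u hu v hv hadj
    by_cases huv : π u = π v
    · left
      show ρ (π u) = ρ (π v)
      rw [huv]
    · exact h.ind (π u) hu (π v) hv ⟨huv, u, v, rfl, rfl, hadj⟩

end Pool.Agent.PReg
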