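import Pool.Agent.Work.MP_cfa43e_lc.TreeWidth
import Pool.Agent.Work.Tools.GridThm.All
import Pool.Agent.Work.MP_cfa43e_lc.Bd.B05
import Pool.Agent.Work.MP_cfa43e_lc.Bd.B07
import Pool.Agent.Work.MP_cfa43e_lc.Bd.B04
import Pool.Agent.Work.MP_cfa43e_lc.Reg.A6
import Pool.Agent.Work.MP_cfa43e_lc.Reg.B6
import Pool.Agent.Work.MP_cfa43e_lc.Reg.B7
import Pool.Agent.Work.MP_cfa43e_lc.Reg.S2
import Pool.Agent.Work.MP_cfa43e_lc.Bd.B06
import Pool.Agent.Work.MP_cfa43e_lc.Reg.S6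
import Pool.Agent.Work.MP_cfa43e_lc.Bd.B08
import Pool.Agent.Work.MP_cfa43e_lc.Reg.L6
import Pool.Agent.Work.MP_cfa43e_lc.Reg.V2
import Pool.Agent.Work.MP_cfa43e_lc.Reg.V4

/-!
# Regular graphs and thin cores: all items together
-/

set_option autoImplicit false

namespace Pool.Agent.PReg

open Pool.Agent.PEmb

theorem gr : PGr := by
  intro K
  obtain ⟨w, hw⟩ := GridThm.grid_minor K
  refine ⟨w, fun {V} _ G hG => ?_⟩
  obtain ⟨B, hB⟩ := hw G hG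
  exact ⟨B, ⟨hB.conn, hB.disj, hB.hor, hB.ver⟩⟩

theorem s2 : PS2 := S2 S2a S2b
theorem s3 : PS3 := S3 S3a S3b
theorem s4b : PS4b := S4b S4a
theorem s4c : PS4c := S4c S4a s4b
theorem s4 : PS4 := S4 S4a s4b s4c
theorem s6 : PS6 := S6 P0
theorem s9b : PS9b := S9b S8
theorem s9 : PS9 := S9 S1 s2 gr S3a s4 s6 S7 S9a s9b e23
theorem sall : PS := Sall s3 S5 s9
theorem f2a : PF2a := F2a F1 P0
theorem f2b : PF2b := F2b F1 P0
theorem f2 : PF2 := F2 P0 F1 f2a f2b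
theorem f3 : PF3 := F3 F3a F3b F3c F3d
theorem f4 : PF4 := F4 P0
theorem fall : PF := Fall sall S5 S1 s2 gr e23 F1 f2 f3 f4
theorem a2 : PA2 := A2 A1
theorem a4 : PA4 := A4 A0 A3
theorem a5 : PA5 := A5 A3 a4
theorem b2 : PB2 := B2 B1
theorem b4 : PB4 := B4 b2 B3
theorem b8 : PB8 := B8 B1 b2 b4 B5
theorem b9 : PB9 := B9 B1 B6 B7 B12
theorem b10 : PB10 := B10 B6 B12
theorem b : PB := B Q11 b8 b9 b10 B11
theorem thinSem : PThinSem := ThinSem fall F5 gr a2 a5 A6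

/-- Graphs with thin cores. -/
theorem mainR : PMainR := MainR b thinSem

theorem r2 : PR2 := R2 A1
theorem r3 : PR3 := R3 A1
theorem r5 : PR5 := R5 A1
theorem r6 : PR6 := R6 R1 r2 r3 r5 V0
theorem r7 : PR7 := R7 R4 r5 r6
theorem l1 : PL1 := L1 P0 F1 f2a L0
theorem l3 : PL3 := L3 L2 P0
theorem l5 : PL5 := L5 L4 F3d
theorem l10 : PL10 := L10 L6 L7 L8 L9 F3d
theorem v1 : PV1 := V1 V0
theorem v2 : PV2 := V2 V0 S3a
theorem v6 : PV6 := V6 P0
theorem regSem : PRegSem :=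
  RegSem sall S1 s2 gr e23 F1 a2 a5 A6 r7 L0 l1 L2 l3 l5 l10 L11 V0 v1 v2 V3 V4 V5 v6

/-- Regular graphs of bounded degree. -/
theorem mainReg (d : ℕ) (C : Code → Prop) (hC : ComputablePred C) (hfat : RegFat d C) :
    FptReducible Clique cliqueParam (Emb C) embParam :=
  MainReg b thinSem regSem gr K1 d C hC hfat

end Pool.Agent.PReg
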