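import Pool.Agent.Work.MP_cfa43e_lc.Stmts

/-!
# Graphs whose core has a large thin part: definitions
-/

set_option autoImplicit false

namespace Pool.Agent.PReg

open Pool.Agent.PEmb

variable {V W : Type}

/-- The number of neighbours of `v`. -/
noncomputable def dg (G : SimpleGraph V) (v : V) : ℕ := (G.neighborSet v).ncard

/-- The `δ`-core of `G`: the union of all sets `S` of vertices such that every vertex of `S` has
at least `δ` neighbours in `S`. -/
def core (δ : ℕ) (G : SimpleGraph V) : Set V :=
  {v | ∃ S : Set V, v ∈ S ∧ ∀ u ∈ S, δ ≤ (G.neighborSet u ∩ S).ncard}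

/-- The thin part: the vertices of the `δ`-core which have degree `δ` in `G`. -/
def thin (δ : ℕ) (G : SimpleGraph V) : Set V := {v | v ∈ core δ G ∧ dg G v = δ}

/-! ## The host -/

/-- Kinds of zones: pinned vertices, diagonal cells, other cells, ports (horizontal for
`o = false`, vertical for `o = true`). -/
inductive ZB
  | pin
  | diag
  | off
  | port (o : Bool)
  deriving DecidableEq

/-- Zones: pinned vertices, cells, ports (`port o i j` lies between the cell `(i, j)` and the cell
`nx o i j`). -/
inductive Zn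
  | pin
  | cell (i j : ℕ)
  | port (o : Bool) (i j : ℕ)
  deriving DecidableEq

/-- The kind of a zone. -/
def zb : Zn → ZB
  | .pin => .pin
  | .cell i j => if i = j then .diag else .off
  | .port o _ _ => .port o

/-- The values allowed in a zone. -/
def okz (Γ : SimpleGraph W) : ZB → Option W × Option W → Prop
  | .pin, p => p = (none, none)
  | .diag, p => ∃ u, p = (some u, some u)
  | .off, p => ∃ u v, p = (some u, some v) ∧ Γ.Adj u v
  | .port _, p => ∃ u, p = (some u, some u)

/-- Compatible values of neighbours. -/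
def cmp : ZB → ZB → Option W × Option W → Option W × Option W → Prop
  | .pin, _, _, _ => True
  | _, .pin, _, _ => True
  | .port _, .port _, p, q => p = q
  | .port false, _, p, q => p.1 = q.1
  | .port true, _, p, q => p.2 = q.2
  | _, .port false, p, q => p.1 = q.1
  | _, .port true, p, q => p.2 = q.2
  | _, _, p, q => p = q

theorem cmp_symm {z z' : ZB} {p q : Option W × Option W} (h : cmp z z' p q) : cmp z' z q p := by
  rcases z with _ | _ | _ | (_ | _) <;> rcases z' with _ | _ | _ | (_ | _) <;>
    simp only [cmp] at h ⊢ <;> exact h.symm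

/-- The host: the vertices of `G` with values. -/
def host (G : SimpleGraph V) (ζ : V → ZB) (Γ : SimpleGraph W) :
    SimpleGraph (V × (Option W × Option W)) where
  Adj p q := G.Adj p.1 q.1 ∧ okz Γ (ζ p.1) p.2 ∧ okz Γ (ζ q.1) q.2 ∧ cmp (ζ p.1) (ζ q.1) p.2 q.2
  symm := ⟨fun _ _ h => ⟨h.1.symm, h.2.2.1, h.2.1, cmp_symm h.2.2.2⟩⟩
  loopless := ⟨fun _ h => h.1.ne rfl⟩

/-- `Γ` has a clique with `k` vertices. -/
def Kq (k : ℕ) (Γ : SimpleGraph W) : Prop := ∃ w : Fin k → W, ∀ a b, a ≠ b → Γ.Adj (w a) (w b)

/-- A layout with `k * k` cells: the zones of the vertices of `G`. -/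
structure Lay0 (k : ℕ) (G : SimpleGraph V) (zn : V → Zn) : Prop where
  rc : ∀ v i j, zn v = .cell i j → i < k ∧ j < k
  rp : ∀ v o i j, zn v = .port o i j → Ex k o i j
  cc : ∀ u v i j i' j', G.Adj u v → zn u = .cell i j → zn v = .cell i' j' → i = i' ∧ j = j'
  pp : ∀ u v o i j o' i' j', G.Adj u v → zn u = .port o i j → zn v = .port o' i' j' →
    o = o' ∧ i = i' ∧ j = j'
  cp : ∀ u v o i j i' j', G.Adj u v → zn u = .port o i j → zn v = .cell i' j' →
    (i', j') = (i, j) ∨ (i', j') = nx o i j
  cell : ∀ i j, i < k → j < k → (G.induce {v | zn v = .cell i j}).Connected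
  port : ∀ o i j, Ex k o i j → (G.induce {v | zn v = .port o i j}).Connected
  link : ∀ o i j, Ex k o i j → ∃ u v, G.Adj u v ∧ zn u = .port o i j ∧ zn v = .cell i j
  link' : ∀ o i j, Ex k o i j → ∃ u v, G.Adj u v ∧ zn u = .port o i j ∧
    zn v = .cell (nx o i j).1 (nx o i j).2

/-- The situation of the rigidity lemma: `f` embeds `G` into the host, `X` is the `δ`-core. -/
structure Sit (k δ Δ : ℕ) (G : SimpleGraph V) (zn : V → Zn) (Γ : SimpleGraph W) (X : Set V)
    (f : V → V × (Option W × Option W)) : Prop where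
  lay : Lay0 k G zn
  pos : 0 < δ
  mem : ∀ v, zn v ≠ .pin → v ∈ X
  deg : ∀ v, zn v ≠ .pin → dg G v = δ
  nb : ∀ v w, zn v ≠ .pin → G.Adj v w → w ∈ X
  lo : ∀ v ∈ X, δ ≤ (G.neighborSet v ∩ X).ncard
  hi : ∀ v ∈ X, (G.neighborSet v ∩ X).ncard ≤ Δ
  mx : ∀ S : Set V, (∀ v ∈ S, δ ≤ (G.neighborSet v ∩ S).ncard) → S ⊆ X
  inj : Function.Injective f
  adj : ∀ x y, G.Adj x y → (host G (fun v => zb (zn v)) Γ).Adj (f x) (f y)

/-- Every cell has at most one value in the image of the core. -/
def Uv (zn : V → Zn) (X : Set V) (f : V → V × (Option W × Option W)) : Prop :=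
  ∀ a ∈ X, ∀ a' ∈ X, ∀ i j, zn (f a).1 = .cell i j → zn (f a').1 = .cell i j →
    (f a).2 = (f a').2

/-- Every cell is locked by a pinned vertex with more than `Δ / 2` neighbours in the cell. -/
def Lck (k Δ : ℕ) (G : SimpleGraph V) (zn : V → Zn) : Prop :=
  ∀ i j, i < k → j < k → ∃ z, zn z = .pin ∧ Δ < 2 * {v | G.Adj z v ∧ zn v = .cell i j}.ncard

/-! ## Codes of hosts -/

/-- The kind of a zone, from four bits: is it a port? is it vertical? is it a diagonal cell? is it
pinned? -/
def zbOf (z : List Bool) : ZB :=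
  if z.getD 3 false then .pin
  else if z.getD 0 false then .port (z.getD 1 false)
  else if z.getD 2 false then .diag else .off

/-- Allowed values in the zone `z`; the value `0` stands for `none`, `u + 1` for `some u`. -/
def okB2 (G : Code) (z : List Bool) (u v : ℕ) : Bool :=
  if z.getD 3 false then decide (u = 0) && decide (v = 0)
  else if z.getD 0 false || z.getD 2 false then decide (0 < u) && decide (u = v)
  else decide (0 < u) && (decide (0 < v) && adjB G (u - 1) (v - 1))

/-- Compatible values. -/
def compB2 (z z' : List Bool) (u v u' v' : ℕ) : Bool :=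
  if z.getD 3 false || z'.getD 3 false then true
  else if z.getD 0 false then
    (if z'.getD 0 false then decide (u = u') && decide (v = v')
      else if z.getD 1 false then decide (v = v') else decide (u = u'))
  else if z'.getD 0 false then
    (if z'.getD 1 false then decide (v = v') else decide (u = u'))
  else decide (u = u') && decide (v = v')

/-- Adjacency of the vertices `p` and `q` of the host. With `n = |G| + 1`, the number `p` stands
for the vertex `p / (n * n)` of the pattern with values `p / n % n` and `p % n`. -/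
def hadjB2 (a : List (List Bool)) (G : Code) (p q : ℕ) : Bool :=
  let n := G.length + 1
  let x := p / (n * n)
  let y := q / (n * n)
  let z := a.getD (a.length / 2 + x) []
  let z' := a.getD (a.length / 2 + y) []
  adjB (aCode a) x y && okB2 G z (p / n % n) (p % n) && okB2 G z' (q / n % n) (q % n) &&
    compB2 z z' (p / n % n) (p % n) (q / n % n) (q % n)

/-- The host. -/
def hCode2 (a : List (List Bool)) (G : Code) : Code :=
  (List.range (a.length / 2 * ((G.length + 1) * (G.length + 1)))).map fun p =>
    (List.range (a.length / 2 * ((G.length + 1) * (G.length + 1)))).map fun q => hadjB2 a G p q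

/-- The reduction. -/
def red2 (x : List (List Bool) × (Code × ℕ)) : Code × Code := (aCode x.1, hCode2 x.1 x.2.1)

/-- All lists of length `n` with entries in `l`. -/
def wordsOf {α : Type} (l : List α) : ℕ → List (List α)
  | 0 => [[]]
  | n + 1 => l.flatMap fun x => (wordsOf l n).map fun w => x :: w

/-- The code of the complete graph. -/
def kc (k : ℕ) : Code := (List.range k).map fun i => (List.range k).map fun j => decide (i ≠ j)

/-- The zones `Z` for the pattern `A` are correct, as far as small graphs show. -/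
def Good (k : ℕ) (A : Code) (Z : List (List Bool)) : Prop :=
  Z.length = A.length ∧ Embeds (graph A) (graph (hCode2 (A ++ Z) (kc k))) ∧
    ∀ n < 2 * A.length + 1, ∀ Γ ∈ wordsOf (wordsOf [true, false] n) n,
      Embeds (graph A) (graph (hCode2 (A ++ Z) Γ)) → Clique (Γ, k)

/-! ## Satisfied vertices, quotients -/

/-- Restriction of the edges to a set of vertices. -/
def rs (G : SimpleGraph V) (S : Set V) : SimpleGraph V where
  Adj u v := G.Adj u v ∧ u ∈ S ∧ v ∈ S
  symm := ⟨fun _ _ h => ⟨h.1.symm, h.2.2, h.2.1⟩⟩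
  loopless := ⟨fun _ h => h.1.ne rfl⟩

/-- A satisfied vertex: degree at most `2`; or degree `3` and all neighbours have degree at most
`2`; or degree `3`, two neighbours are adjacent and the third has degree at most `2`. -/
def Sat (G : SimpleGraph V) (v : V) : Prop :=
  dg G v ≤ 2 ∨ (dg G v = 3 ∧ ∀ u, G.Adj v u → dg G u ≤ 2) ∨
    (dg G v = 3 ∧ ∃ a b c, a ≠ b ∧ a ≠ c ∧ b ≠ c ∧ G.Adj v a ∧ G.Adj v b ∧ G.Adj v c ∧
      G.Adj a b ∧ dg G c ≤ 2)

/-- The quotient of `G` by the map `π`. -/
def quo {V V' : Type} (G : SimpleGraph V) (π : V → V') : SimpleGraph V' where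
  Adj a b := a ≠ b ∧ ∃ x y, π x = a ∧ π y = b ∧ G.Adj x y
  symm := ⟨fun _ _ h => ⟨h.1.symm, by
    obtain ⟨x, y, h1, h2, h3⟩ := h.2
    exact ⟨y, x, h2, h1, h3.symm⟩⟩⟩
  loopless := ⟨fun _ h => h.1 rfl⟩

/-- The vertices at distance at most `r` from `v`. -/
def ball (G : SimpleGraph V) : ℕ → V → Set V
  | 0, v => {v}
  | r + 1, v => {w | w ∈ ball G r v ∨ ∃ u ∈ ball G r v, G.Adj u w}

/-- Equal, or adjacent and both of degree `3`. -/
def Eqv (G : SimpleGraph V) (x y : V) : Prop := x = y ∨ (G.Adj x y ∧ dg G x = 3 ∧ dg G y = 3)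

/-- The class of a vertex. -/
def cl (G : SimpleGraph V) (x : V) : Set V := {y | Eqv G x y}

/-- An induced model of the pattern: the sets `{u ∈ U | ρ u = x}` are connected and adjacent
exactly as in the pattern. -/
structure IPat (K : ℕ) (P : Par) (G : SimpleGraph V) (U : Set V) (ρ : V → Lab) : Prop where
  vx : ∀ u ∈ U, Vx K P (ρ u)
  conn : ∀ x, Vx K P x → (G.induce {u | u ∈ U ∧ ρ u = x}).Connected
  adj : ∀ x y, AAdj K P x y → ∃ u ∈ U, ∃ v ∈ U, ρ u = x ∧ ρ v = y ∧ G.Adj u v
  ind : ∀ u ∈ U, ∀ v ∈ U, G.Adj u v → ρ u = ρ v ∨ AAdj K P (ρ u) (ρ v)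

/-- Every class which has three neighbouring classes contains a vertex `z` with three neighbours
in `U` such that all other vertices of the class have neighbours in `U` outside the class. -/
def RL (K : ℕ) (P : Par) (G : SimpleGraph V) (U : Set V) (ρ : V → Lab) : Prop :=
  ∀ p a b c, a ≠ b → a ≠ c → b ≠ c → AAdj K P p a → AAdj K P p b → AAdj K P p c →
    ∃ z ∈ U, ρ z = p ∧ 3 ≤ {v | v ∈ U ∧ G.Adj z v}.ncard ∧
      ∀ v ∈ U, ρ v = p → v ≠ z → ∃ u ∈ U, ρ u ≠ p ∧ G.Adj v u

/-- The zone of a vertex of the pattern of size `2 * k`: the cells are the blocks of `2 * 2`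
cycles with the legs between them, the ports are the lower legs to the right and the right legs
down -/
def zlab : Lab → Zn
  | .core i j _ => .cell (i / 2) (j / 2)
  | .leg false i j _ => if j % 2 = 0 then .cell (i / 2) (j / 2)
      else if i % 2 = 0 then .port false (i / 2) (j / 2) else .pin
  | .leg true i j _ => if i % 2 = 0 then .cell (i / 2) (j / 2)
      else if j % 2 = 0 then .port true (i / 2) (j / 2) else .pin

/-- The root whose class contains the lock vertex of the cell `(i, j)`. -/
def rt0 (P : Par) (i j : ℕ) : Lab := .core (2 * i) (2 * j) (P.r (2 * i) (2 * j) 0)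

end Pool.Agent.PReg
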